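import Pool.Agent.K6.H90.CN.Phase

/-!
# Counting the members of the family in a box
-/

set_option autoImplicit false

namespace Pool.Agent.K6.H90.CN

open Finset Filter Topology Polynomial

theorem fam_lt {q u u' : ℕ} (hq : 1 ≤ q) (hu : 1 ≤ u) (h : u < u') : fam q u < fam q u' := by
  have h1 := one_le_four hq hu
  have h2 : 4 * q ^ 2 * u ≤ 4 * q ^ 2 * u' := Nat.mul_le_mul_left _ h.le
  unfold fam
  have h3 : (4 * q ^ 2 * u - 1) * (4 * q ^ 2 * u + 1) ≤ (4 * q ^ 2 * u' - 1) * (4 * q ^ 2 * u' + 1) :=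
    Nat.mul_le_mul (by omega) (by omega)
  have h4 : 0 < (4 * q ^ 2 * u - 1) * (4 * q ^ 2 * u + 1) := Nat.mul_pos (by omega) (by omega)
  exact Nat.mul_lt_mul_of_lt_of_le h h3 (h4.trans_le h3)

theorem fam_inj {q r v v' : ℕ} (hq : 1 ≤ q) (hr : 1 ≤ r)
    (h : fam q (r + 64 * q ^ 2 * v) = fam q (r + 64 * q ^ 2 * v')) : v = v' := by
  have hq2 : 0 < 64 * q ^ 2 := by positivity
  by_contra hne
  rcases lt_or_gt_of_ne hne with hlt | hlt
  · have := fam_lt hq (show 1 ≤ r + 64 * q ^ 2 * v by omega)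
      (Nat.add_lt_add_left (Nat.mul_lt_mul_of_pos_left hlt hq2) r)
    omega
  · have := fam_lt hq (show 1 ≤ r + 64 * q ^ 2 * v' by omega)
      (Nat.add_lt_add_left (Nat.mul_lt_mul_of_pos_left hlt hq2) r)
    omega

/-- the constant of the size of the members -/
def Cq (q r : ℕ) : ℕ := 16 * q ^ 4 * (r + 64 * q ^ 2) ^ 3

theorem fam_le {q r v V : ℕ} (hq : 1 ≤ q) (hr : 1 ≤ r) (hv : v < V) :
    fam q (r + 64 * q ^ 2 * v) ≤ Cq q r * V ^ 3 := by
  have hu : 1 ≤ r + 64 * q ^ 2 * v := by omega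
  have h1 : fam q (r + 64 * q ^ 2 * v) ≤ 16 * q ^ 4 * (r + 64 * q ^ 2 * v) ^ 3 := by
    have h2 := fam_cast hq hu
    have h3 : (fam q (r + 64 * q ^ 2 * v) : ℤ) ≤ 16 * (q : ℤ) ^ 4 * ((r + 64 * q ^ 2 * v : ℕ) : ℤ) ^ 3 := by
      rw [h2]
      have : (0 : ℤ) ≤ ((r + 64 * q ^ 2 * v : ℕ) : ℤ) := Int.natCast_nonneg _
      linarith
    exact_mod_cast h3
  refine h1.trans ?_
  have h4 : r + 64 * q ^ 2 * v ≤ (r + 64 * q ^ 2) * V := by
    have h5 : r ≤ r * V := Nat.le_mul_of_pos_right _ (by omega)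
    have h6 : 64 * q ^ 2 * v ≤ 64 * q ^ 2 * V := Nat.mul_le_mul_left _ hv.le
    rw [Nat.add_mul]
    omega
  unfold Cq
  calc 16 * q ^ 4 * (r + 64 * q ^ 2 * v) ^ 3 ≤ 16 * q ^ 4 * ((r + 64 * q ^ 2) * V) ^ 3 :=
        Nat.mul_le_mul_left _ (Nat.pow_le_pow_left h4 3)
    _ = _ := by ring

theorem one_le_Cq {q r : ℕ} (hq : 1 ≤ q) (hr : 1 ≤ r) : 1 ≤ Cq q r := by
  unfold Cq
  exact Nat.one_le_iff_ne_zero.2 (by positivity)

/-- from `v` to `n` -/
theorem transfer {q r : ℕ} {h : ℤ} (D : Data q r h) (κ : ℝ) (hκ : 0 ≤ κ) (V₀ : ℕ) :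
    ∃ X₀ : ℝ, ∀ X : ℝ, X₀ ≤ X → ∀ P : ℕ → Prop,
      (∀ V : ℕ, V₀ ≤ V → κ * V ≤ (({v | v < V ∧ Good q r v ∧ P (fam q (r + 64 * q ^ 2 * v))} : Set ℕ).ncard : ℝ)) →
      κ / (2 * Cq q r) * X ^ ((1 : ℝ) / 3) ≤
        (({n | (n : ℝ) ≤ X ∧ (∃ v, Good q r v ∧ n = fam q (r + 64 * q ^ 2 * v)) ∧ P n} : Set ℕ).ncard : ℝ) := by
  have hC1 : (1 : ℝ) ≤ (Cq q r : ℝ) := by exact_mod_cast one_le_Cq D.hq D.hr
  have hC0 : (0 : ℝ) < (Cq q r : ℝ) := by linarith
  refine ⟨((Cq q r : ℝ) * (V₀ + 2)) ^ 3, fun X hX P hP => ?_⟩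
  have hX0 : 0 ≤ X := le_trans (by positivity) hX
  set Y := X ^ ((1 : ℝ) / 3) with hY
  have hY0 : 0 ≤ Y := Real.rpow_nonneg hX0 _
  have hY3 : Y ^ 3 = X := by
    rw [hY, ← Real.rpow_natCast, ← Real.rpow_mul hX0]
    norm_num
  have hYge : (Cq q r : ℝ) * (V₀ + 2) ≤ Y := by
    by_contra hcon
    push Not at hcon
    have := pow_lt_pow_left₀ hcon hY0 (show (3 : ℕ) ≠ 0 by norm_num)
    linarith
  have hdiv : (V₀ : ℝ) + 2 ≤ Y / Cq q r := by
    rw [le_div_iff₀ hC0]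
    linarith
  set V := ⌊Y / Cq q r⌋₊ with hV
  have hV1 : (V : ℝ) ≤ Y / Cq q r := Nat.floor_le (by positivity)
  have hV2 : Y / Cq q r < V + 1 := Nat.lt_floor_add_one _
  have hV0 : V₀ ≤ V := by
    have : (V₀ : ℝ) < V + 1 := by linarith
    have : V₀ < V + 1 := by exact_mod_cast this
    omega
  have hsub : (fun v => fam q (r + 64 * q ^ 2 * v)) '' {v | v < V ∧ Good q r v ∧ P (fam q (r + 64 * q ^ 2 * v))} ⊆
      {n | (n : ℝ) ≤ X ∧ (∃ v, Good q r v ∧ n = fam q (r + 64 * q ^ 2 * v)) ∧ P n} := by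
    rintro n ⟨v, ⟨hv, hg, hp⟩, rfl⟩
    refine ⟨?_, ⟨v, hg, rfl⟩, hp⟩
    have h1 : ((fam q (r + 64 * q ^ 2 * v) : ℕ) : ℝ) ≤ ((Cq q r * V ^ 3 : ℕ) : ℝ) := by
      exact_mod_cast fam_le D.hq D.hr hv
    refine h1.trans ?_
    push_cast
    have h2 : (V : ℝ) ^ 3 ≤ (Y / Cq q r) ^ 3 := pow_le_pow_left₀ (Nat.cast_nonneg _) hV1 3
    calc (Cq q r : ℝ) * (V : ℝ) ^ 3 ≤ Cq q r * (Y / Cq q r) ^ 3 := mul_le_mul_of_nonneg_left h2 hC0.le
      _ = Y ^ 3 / (Cq q r) ^ 2 := by field_simp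
      _ ≤ Y ^ 3 / 1 := div_le_div_of_nonneg_left (by positivity) one_pos (by nlinarith)
      _ = X := by rw [div_one, hY3]
  have hfin : ({n | (n : ℝ) ≤ X ∧ (∃ v, Good q r v ∧ n = fam q (r + 64 * q ^ 2 * v)) ∧ P n} : Set ℕ).Finite := by
    refine (Set.finite_Iic ⌊X⌋₊).subset fun n hn => ?_
    exact Nat.le_floor hn.1
  have hcard := Set.ncard_le_ncard hsub hfin
  rw [Set.ncard_image_of_injective _ (fun v v' h => fam_inj D.hq D.hr h)] at hcard
  have h1 := hP V hV0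
  have h2 : κ / (2 * Cq q r) * Y ≤ κ * V := by
    have h3 : Y / (2 * Cq q r) ≤ V := by
      have h4 : Y / (2 * Cq q r) = (Y / Cq q r) / 2 := by field_simp
      have h5 : (0 : ℝ) ≤ V₀ := Nat.cast_nonneg _
      rw [h4]
      linarith
    calc κ / (2 * Cq q r) * Y = κ * (Y / (2 * Cq q r)) := by ring
      _ ≤ κ * V := mul_le_mul_of_nonneg_left h3 hκ
  have h6 : (({v | v < V ∧ Good q r v ∧ P (fam q (r + 64 * q ^ 2 * v))} : Set ℕ).ncard : ℝ) ≤
      (({n | (n : ℝ) ≤ X ∧ (∃ v, Good q r v ∧ n = fam q (r + 64 * q ^ 2 * v)) ∧ P n} : Set ℕ).ncard : ℝ) := by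
    exact_mod_cast hcard
  linarith

theorem ncard_eq (q r V : ℕ) [DecidablePred (Good q r)] (P : ℕ → Prop) [DecidablePred P] :
    ({v | v < V ∧ Good q r v ∧ P v} : Set ℕ).ncard = (((range V).filter fun v => Good q r v).filter P).card := by
  rw [← Set.ncard_coe_finset]
  congr 1
  ext v
  simp [and_assoc]

theorem W_const {k : ℕ} (N : ℕ) : W (fun _ : Fin k => N) (fun _ => N) = w N N ^ k := by
  unfold W
  rw [Finset.prod_const, Finset.card_univ, Fintype.card_fin]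

theorem W_bump {k : ℕ} (N : ℕ) (i : Fin k) :
    W (fun j : Fin k => if j = i then N + 1 else N) (fun j => if j = i then N + 1 else N) =
      w N N ^ k * ((2 * N + 1) / (2 * N + 2)) := by
  rw [← W_const]
  unfold W
  rw [← Finset.mul_prod_erase _ _ (mem_univ i), ← Finset.mul_prod_erase univ (fun _ : Fin k => w N N) (mem_univ i)]
  have h2 : ∏ j ∈ univ.erase i, w (if j = i then N + 1 else N) (if j = i then N + 1 else N) =
      ∏ _j ∈ univ.erase i, w N N :=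
    Finset.prod_congr rfl fun j hj => by rw [if_neg (Finset.ne_of_mem_erase hj)]
  rw [h2]
  simp only [if_true]
  rw [w_succ]
  ring

/-- **The count in a box**, uniformly in the centre of the box -/
theorem count_B {k : ℕ} {δ : ℝ} (hδ0 : 0 < δ) (hδ : δ ≤ 1 / 2) {q r : ℕ} {h : ℤ} (D : Data q r h)
    (f : Fin k → ℝ[X]) (hf : Indep f) :
    ∃ V₀ : ℕ, ∀ V : ℕ, V₀ ≤ V → ∀ β : Fin k → ℝ, 1 / 20 * (δ / √(k + 2)) ^ k * V ≤
      (({v | v < V ∧ Good q r v ∧ ∀ i, |((f i).eval (nv q r v) - β i) - round ((f i).eval (nv q r v) - β i)| ≤ δ} :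
        Set ℕ).ncard : ℝ) := by
  classical
  set N := ⌈((k : ℝ) + 1) / (4 * δ ^ 2)⌉₊ with hN
  have hδ2 : 0 < 4 * δ ^ 2 := by positivity
  have hδ1 : 4 * δ ^ 2 ≤ 1 := by nlinarith
  have hNlow : ((k : ℝ) + 1) / (4 * δ ^ 2) ≤ N := Nat.le_ceil _
  have hNup : (N : ℝ) < ((k : ℝ) + 1) / (4 * δ ^ 2) + 1 := Nat.ceil_lt_add_one (by positivity)
  have hN1 : 1 ≤ N := by
    have h1 : (0 : ℝ) < ((k : ℝ) + 1) / (4 * δ ^ 2) := by positivity
    exact Nat.ceil_pos.2 h1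
  have hN0 : (0 : ℝ) < N := by exact_mod_cast hN1
  have hNup2 : (N : ℝ) * (4 * δ ^ 2) ≤ k + 2 := by
    have h1 : (N : ℝ) * (4 * δ ^ 2) ≤ (((k : ℝ) + 1) / (4 * δ ^ 2) + 1) * (4 * δ ^ 2) :=
      mul_le_mul_of_nonneg_right hNup.le hδ2.le
    rw [add_mul, div_mul_cancel₀ _ hδ2.ne'] at h1
    linarith
  -- the mean
  set Wc := w N N ^ k with hWc
  have hw0 : 0 < w N N := by
    unfold w
    have : 0 < (2 * N).choose N := Nat.choose_pos (by omega)
    have : (0 : ℝ) < ((2 * N).choose N : ℝ) := by exact_mod_cast this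
    positivity
  have hWc0 : 0 < Wc := pow_pos hw0 k
  have hWclow : (δ / √(k + 2)) ^ k ≤ Wc := by
    refine pow_le_pow_left₀ (by positivity) ?_ k
    refine le_of_sq_le_sq ?_ hw0.le
    rw [div_pow, Real.sq_sqrt (by positivity)]
    refine le_trans ?_ (w_center N hN1)
    rw [div_le_div_iff₀ (by positivity) (by positivity)]
    linarith
  set A₀ : ℝ := 1 + k / (2 * δ ^ 2) with hA₀
  have hA₀pos : 0 < A₀ := by positivity
  set ε := Wc / (20 * A₀) with hε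
  have hε0 : 0 < ε := by positivity
  obtain ⟨V₁, hV₁⟩ := uniform_mean D f hf (fun _ => N) ε hε0
  have hV₂ := fun i : Fin k => uniform_mean D f hf (fun j => if j = i then N + 1 else N) ε hε0
  choose V₂ hV₂ using hV₂
  obtain ⟨V₃, hV₃⟩ := eventually_atTop.1 (card_good D)
  refine ⟨max (max V₁ (univ.sup V₂)) V₃, fun V hV β => ?_⟩
  have hVa : V₁ ≤ V := (le_max_left _ _).trans ((le_max_left _ _).trans hV)
  have hVb : ∀ i, V₂ i ≤ V := fun i => (Finset.le_sup (mem_univ i)).trans ((le_max_right _ _).trans ((le_max_left _ _).trans hV))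
  have hVc : V₃ ≤ V := (le_max_right _ _).trans hV
  have hVnn : (0 : ℝ) ≤ V := Nat.cast_nonneg _
  rw [ncard_eq]
  set G := (range V).filter fun v => Good q r v with hG
  set y : ℕ → Fin k → ℝ := fun v i => (f i).eval (nv q r v) - β i with hy
  have hmin := Finset.sum_le_sum (s := G) fun v _ => T_minorant N hδ0 hδ (y v)
  rw [← Finset.sum_filter, Finset.sum_const, nsmul_eq_mul, mul_one, Finset.sum_sub_distrib, ← Finset.sum_div,
    Finset.sum_comm] at hmin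
  have hA := abs_le.1 (hV₁ V hVa β)
  have hB := fun i => abs_le.1 (hV₂ i V (hVb i) β)
  rw [W_const] at hA
  simp only [W_bump] at hB
  have hsum : ∑ i, ∑ v ∈ G, (T (fun _ => N) (y v) - T (fun j => if j = i then N + 1 else N) (y v)) ≤
      k * (Wc / (2 * N + 2) * G.card + 2 * (ε * V)) := by
    have h1 : ∀ i ∈ (univ : Finset (Fin k)), ∑ v ∈ G, (T (fun _ => N) (y v) - T (fun j => if j = i then N + 1 else N) (y v)) ≤
        Wc / (2 * N + 2) * G.card + 2 * (ε * V) := by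
      intro i _
      rw [Finset.sum_sub_distrib]
      have h2 := hA.2
      have h3 := (hB i).1
      have h4 : Wc * ((2 * N + 1) / (2 * N + 2)) = Wc - Wc / (2 * N + 2) := by
        field_simp
        ring
      rw [← hWc, h4] at h3
      linarith
    calc _ ≤ ∑ _i : Fin k, (Wc / (2 * N + 2) * G.card + 2 * (ε * V)) := Finset.sum_le_sum h1
      _ = _ := by rw [sum_const, card_univ, Fintype.card_fin, nsmul_eq_mul]
  have hlow : Wc * G.card - ε * V - k * (Wc / (2 * N + 2) * G.card + 2 * (ε * V)) / (4 * δ ^ 2) ≤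
      ((G.filter fun v => ∀ i, |y v i - round (y v i)| ≤ δ).card : ℝ) := by
    have h1 := hA.1
    have h2 : (∑ i, ∑ v ∈ G, (T (fun _ => N) (y v) - T (fun j => if j = i then N + 1 else N) (y v))) / (4 * δ ^ 2) ≤
        k * (Wc / (2 * N + 2) * G.card + 2 * (ε * V)) / (4 * δ ^ 2) := by gcongr
    linarith
  refine le_trans ?_ hlow
  -- the algebra
  have hGV := hV₃ V hVc
  have hk : (k : ℝ) / (4 * δ ^ 2) ≤ N + 1 := by
    have h1 : (k : ℝ) / (4 * δ ^ 2) ≤ ((k : ℝ) + 1) / (4 * δ ^ 2) := by gcongr; linarith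
    linarith
  have e1 : k * (Wc / (2 * N + 2) * G.card + 2 * (ε * V)) / (4 * δ ^ 2) =
      (k : ℝ) / (4 * δ ^ 2) * (Wc * G.card) / (2 * (N + 1)) + k / (2 * δ ^ 2) * (ε * V) := by
    field_simp
    ring
  have e2 : (k : ℝ) / (4 * δ ^ 2) * (Wc * G.card) / (2 * (N + 1)) ≤ Wc * G.card / 2 := by
    rw [div_le_div_iff₀ (by positivity) (by norm_num)]
    have h1 : 0 ≤ Wc * G.card := by positivity
    nlinarith [mul_le_mul_of_nonneg_right hk h1]
  have e3 : A₀ * (ε * V) = Wc / 20 * V := by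
    rw [hε]
    field_simp
  have e4 : A₀ * (ε * V) = ε * V + k / (2 * δ ^ 2) * (ε * V) := by rw [hA₀]; ring
  rw [e1]
  have e5 : Wc * (V / 5) ≤ Wc * G.card := mul_le_mul_of_nonneg_left hGV hWc0.le
  have e6 : 1 / 20 * (δ / √(k + 2)) ^ k * V ≤ 1 / 20 * Wc * V := by gcongr
  linarith

/-- **The count near `f(h)`** -/
theorem count_A {k : ℕ} {δ : ℝ} (hδ0 : 0 < δ) (hδ : δ ≤ 1 / 2) (f : Fin k → ℝ[X]) :
    ∃ (Q : ℕ) (κ : ℝ), 1 ≤ Q ∧ 0 < κ ∧ ∀ (q r : ℕ) (h : ℤ), Data q r h → Q ∣ q → ∃ V₀ : ℕ, ∀ V : ℕ, V₀ ≤ V → κ * V ≤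
      (({v | v < V ∧ Good q r v ∧ ∀ i, |((f i).eval (nv q r v) - (f i).eval (h : ℝ)) -
        round ((f i).eval (nv q r v) - (f i).eval (h : ℝ))| ≤ δ} : Set ℕ).ncard : ℝ) := by
  classical
  have hδ2 : 0 < 4 * δ ^ 2 := by positivity
  have hδ1 : 4 * δ ^ 2 ≤ 1 := by nlinarith
  obtain ⟨N, hN, hN1⟩ : ∃ N : ℕ, (1 - 4 * δ ^ 2) ^ N * (4 * (N : ℝ)) ^ k < 1 / 2 ∧ 1 ≤ N := by
    have h1 := tendsto_pow_const_mul_const_pow_of_abs_lt_one k (show |1 - 4 * δ ^ 2| < 1 by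
      rw [abs_of_nonneg (by linarith)]; linarith)
    have h2 := (h1.const_mul ((4 : ℝ) ^ k)).eventually (gt_mem_nhds (show (4 : ℝ) ^ k * 0 < 1 / 2 by norm_num))
    obtain ⟨N, hN, hN1⟩ := (h2.and (eventually_ge_atTop 1)).exists
    refine ⟨N, ?_, hN1⟩
    rw [mul_pow]
    linarith
  have hN0 : (0 : ℝ) < N := by exact_mod_cast hN1
  set Wc := w N N ^ k with hWc
  have hw0 : 0 < w N N := by
    unfold w
    have : 0 < (2 * N).choose N := Nat.choose_pos (by omega)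
    have : (0 : ℝ) < ((2 * N).choose N : ℝ) := by exact_mod_cast this
    positivity
  have hWc0 : 0 < Wc := pow_pos hw0 k
  have hwlow : 1 / (4 * (N : ℝ)) ≤ w N N := by
    have h1 := w_center N hN1
    have h2 := w_le_one N N
    nlinarith
  have hsmall : (1 - 4 * δ ^ 2) ^ N ≤ Wc / 2 := by
    have h1 : (1 / (4 * (N : ℝ))) ^ k ≤ Wc := pow_le_pow_left₀ (by positivity) hwlow k
    have h2 : (1 - 4 * δ ^ 2) ^ N ≤ 1 / 2 * (1 / (4 * (N : ℝ))) ^ k := by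
      rw [one_div (4 * (N : ℝ)), inv_pow, ← div_eq_mul_inv, le_div_iff₀ (by positivity)]
      exact hN.le
    linarith
  obtain ⟨Q, hQ1, hQ⟩ := lower_mean f (fun _ => N)
  refine ⟨Q, Wc / 20, hQ1, by positivity, fun q r h D hqQ => ?_⟩
  obtain ⟨V₁, hV₁⟩ := hQ q r h D hqQ (Wc / 20) (by positivity)
  obtain ⟨V₃, hV₃⟩ := eventually_atTop.1 (card_good D)
  refine ⟨max V₁ V₃, fun V hV => ?_⟩
  have h1 := hV₁ V ((le_max_left _ _).trans hV)
  have h2 := hV₃ V ((le_max_right _ _).trans hV)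
  have hVnn : (0 : ℝ) ≤ V := Nat.cast_nonneg _
  rw [ncard_eq]
  set G := (range V).filter fun v => Good q r v with hG
  set y : ℕ → Fin k → ℝ := fun v i => (f i).eval (nv q r v) - (f i).eval (h : ℝ) with hy
  rw [W_const, ← hWc] at h1
  have h3 : ∑ v ∈ G, T (fun _ => N) (y v) ≤
      ((G.filter fun v => ∀ i, |y v i - round (y v i)| ≤ δ).card : ℝ) + G.card * (1 - 4 * δ ^ 2) ^ N := by
    calc ∑ v ∈ G, T (fun _ => N) (y v) ≤
          ∑ v ∈ G, ((if ∀ i, |y v i - round (y v i)| ≤ δ then (1 : ℝ) else 0) + (1 - 4 * δ ^ 2) ^ N) := by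
          refine Finset.sum_le_sum fun v _ => ?_
          have hnn : 0 ≤ (1 - 4 * δ ^ 2) ^ N := pow_nonneg (by linarith) _
          split_ifs with hbox
          · have := T_le_one (fun _ : Fin k => N) (y v)
            linarith
          · push Not at hbox
            have := T_small N hδ0 hδ hbox
            linarith
      _ = _ := by
          rw [Finset.sum_add_distrib, ← Finset.sum_filter, Finset.sum_const, Finset.sum_const, nsmul_eq_mul,
            nsmul_eq_mul, mul_one]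
  have h4 : (G.card : ℝ) * (1 - 4 * δ ^ 2) ^ N ≤ G.card * (Wc / 2) := mul_le_mul_of_nonneg_left hsmall (Nat.cast_nonneg _)
  have h5 : Wc / 2 * (V / 5) ≤ Wc / 2 * G.card := mul_le_mul_of_nonneg_left h2 (by positivity)
  linarith

end Pool.Agent.K6.H90.CN
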