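import Mathlib

/-!
# The family `u (4 q² u - 1) (4 q² u + 1)` of congruent numbers: elementary facts and a sieve
-/

set_option autoImplicit false

namespace Pool.Agent.K6.H90.CN

open Finset

/-- the family of congruent numbers -/
def fam (q u : ℕ) : ℕ := u * ((4 * q ^ 2 * u - 1) * (4 * q ^ 2 * u + 1))

theorem one_le_four {q u : ℕ} (hq : 1 ≤ q) (hu : 1 ≤ u) : 4 ≤ 4 * q ^ 2 * u := by
  have h1 : 1 ≤ q ^ 2 := Nat.one_le_pow _ _ hq
  have h2 : 1 ≤ q ^ 2 * u := Nat.one_le_iff_ne_zero.2 (by positivity)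
  nlinarith

theorem fam_cast {q u : ℕ} (hq : 1 ≤ q) (hu : 1 ≤ u) :
    (fam q u : ℤ) = 16 * (q : ℤ) ^ 4 * u ^ 3 - u := by
  unfold fam
  have h := one_le_four hq hu
  push_cast [Nat.cast_sub (show 1 ≤ 4 * q ^ 2 * u by omega)]
  ring

theorem fam_real {q u : ℕ} (hq : 1 ≤ q) (hu : 1 ≤ u) :
    (fam q u : ℝ) = 16 * (q : ℝ) ^ 4 * u ^ 3 - u := by
  have h := fam_cast hq hu
  have h2 : (((fam q u : ℕ) : ℤ) : ℝ) = ((16 * (q : ℤ) ^ 4 * u ^ 3 - u : ℤ) : ℝ) := by rw [h]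
  push_cast at h2
  exact h2

/-- the members of the family are congruent numbers -/
theorem congruent_fam {q u : ℕ} (hq : 1 ≤ q) (hu : 1 ≤ u) :
    ∃ x y z t : ℕ, 0 < x ∧ 0 < y ∧ 0 < z ∧ 0 < t ∧ x ^ 2 + fam q u * y ^ 2 = z ^ 2 ∧
      t ^ 2 + fam q u * y ^ 2 = x ^ 2 := by
  have h := one_le_four hq hu
  obtain ⟨m, hm⟩ : ∃ m : ℕ, 4 * q ^ 2 * u = m + 4 := ⟨4 * q ^ 2 * u - 4, by omega⟩
  refine ⟨(m + 4) ^ 2 + 1, 4 * q, (m + 4) ^ 2 + 2 * (m + 4) - 1, m ^ 2 + 6 * m + 7, by positivity,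
    by positivity, ?_, by positivity, ?_, ?_⟩
  · have : (m + 4) ^ 2 + 2 * (m + 4) - 1 = m ^ 2 + 10 * m + 23 := by
      have : (m + 4) ^ 2 + 2 * (m + 4) = m ^ 2 + 10 * m + 24 := by ring
      omega
    rw [this]; positivity
  · have e1 : (m + 4) ^ 2 + 2 * (m + 4) - 1 = m ^ 2 + 10 * m + 23 := by
      have : (m + 4) ^ 2 + 2 * (m + 4) = m ^ 2 + 10 * m + 24 := by ring
      omega
    have e2 : fam q u = u * ((m + 3) * (m + 5)) := by
      unfold fam
      rw [hm]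
      congr 1
    rw [e1, e2]
    have e3 : u * ((m + 3) * (m + 5)) * (4 * q) ^ 2 = 4 * (m + 4) * ((m + 3) * (m + 5)) := by
      calc u * ((m + 3) * (m + 5)) * (4 * q) ^ 2 = 4 * (4 * q ^ 2 * u) * ((m + 3) * (m + 5)) := by ring
        _ = _ := by rw [hm]
    rw [e3]
    ring
  · have e2 : fam q u = u * ((m + 3) * (m + 5)) := by
      unfold fam
      rw [hm]
      congr 1
    rw [e2]
    have e3 : u * ((m + 3) * (m + 5)) * (4 * q) ^ 2 = 4 * (m + 4) * ((m + 3) * (m + 5)) := by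
      calc u * ((m + 3) * (m + 5)) * (4 * q) ^ 2 = 4 * (4 * q ^ 2 * u) * ((m + 3) * (m + 5)) := by ring
        _ = _ := by rw [hm]
    rw [e3]
    ring

/-- the three linear forms -/
def form (q u : ℕ) (i : Fin 3) : ℕ :=
  if i = 0 then u else if i = 1 then 4 * q ^ 2 * u - 1 else 4 * q ^ 2 * u + 1

theorem squarefree_fam {q u : ℕ} (hq : 1 ≤ q) (hu : 1 ≤ u) (h : ∀ i, Squarefree (form q u i)) :
    Squarefree (fam q u) := by
  have h4 := one_le_four hq hu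
  have h0 : Squarefree u := h 0
  have h1 : Squarefree (4 * q ^ 2 * u - 1) := h 1
  have h2 : Squarefree (4 * q ^ 2 * u + 1) := h 2
  have c1 : Nat.Coprime (4 * q ^ 2 * u - 1) (4 * q ^ 2 * u + 1) := by
    obtain ⟨m, hm⟩ : ∃ m : ℕ, 4 * q ^ 2 * u = 2 * m + 2 := ⟨2 * q ^ 2 * u - 1, by
      have : 4 * q ^ 2 * u = 2 * (2 * q ^ 2 * u) := by ring
      omega⟩
    rw [hm, show 2 * m + 2 + 1 = (2 * m + 2 - 1) + 2 by omega]
    rw [Nat.coprime_self_add_right]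
    have : 2 * m + 2 - 1 = 1 + 2 * m := by omega
    rw [this]
    simp
  have c2 : Nat.Coprime u ((4 * q ^ 2 * u - 1) * (4 * q ^ 2 * u + 1)) := by
    refine Nat.Coprime.mul_right ?_ ?_
    · have e : 4 * q ^ 2 * u = (4 * q ^ 2 * u - 1) + 1 := by omega
      have : Nat.Coprime (4 * q ^ 2 * u) (4 * q ^ 2 * u - 1) := by
        conv_lhs => rw [e]
        simp
      exact Nat.Coprime.coprime_dvd_left (Dvd.intro_left _ rfl) this
    · have : Nat.Coprime (4 * q ^ 2 * u) (4 * q ^ 2 * u + 1) := by simp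
      exact Nat.Coprime.coprime_dvd_left (Dvd.intro_left _ rfl) this
  unfold fam
  rw [Nat.squarefree_mul c2, Nat.squarefree_mul c1]
  exact ⟨h0, h1, h2⟩

/-- the numbers `v` for which all three forms are squarefree at `u = r + 64 q² v` -/
def Good (q r v : ℕ) : Prop := ∀ i, Squarefree (form q (r + 64 * q ^ 2 * v) i)

/-- no square of a prime `p ≤ z`, `p ∤ 2 q`, divides one of the forms -/
def GoodZ (q r z v : ℕ) : Prop :=
  ∀ p : ℕ, p.Prime → p ≤ z → ¬ p ∣ 2 * q → ∀ i, ¬ p ^ 2 ∣ form q (r + 64 * q ^ 2 * v) i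

/-- a prime factor of `2 q` does no harm -/
theorem no_small {q r : ℕ} (hq : 1 ≤ q) (hr : 1 ≤ r) {h : ℤ} (hh : Squarefree h)
    (hrh : ((64 * q ^ 2 : ℕ) : ℤ) ∣ (r : ℤ) + h) {p : ℕ} (hp : p.Prime) (hpq : p ∣ 2 * q) (v : ℕ) (i : Fin 3) :
    ¬ p ^ 2 ∣ form q (r + 64 * q ^ 2 * v) i := by
  have hu : 1 ≤ r + 64 * q ^ 2 * v := by omega
  have h4 := one_le_four hq hu
  have hp2 : p ^ 2 ∣ 4 * q ^ 2 := by
    have := pow_dvd_pow_of_dvd hpq 2
    rwa [mul_pow] at this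
  intro hd
  unfold form at hd
  split_ifs at hd with h0 h1
  · -- p² ∣ u
    have e1 : ((p ^ 2 : ℕ) : ℤ) ∣ ((64 * q ^ 2 : ℕ) : ℤ) := by
      have : p ^ 2 ∣ 64 * q ^ 2 := hp2.trans ⟨16, by ring⟩
      exact_mod_cast this
    have e2 : ((p ^ 2 : ℕ) : ℤ) ∣ ((r + 64 * q ^ 2 * v : ℕ) : ℤ) := by exact_mod_cast hd
    have e3 : ((p ^ 2 : ℕ) : ℤ) ∣ (r : ℤ) := by
      have : (r : ℤ) = ((r + 64 * q ^ 2 * v : ℕ) : ℤ) - ((64 * q ^ 2 : ℕ) : ℤ) * v := by push_cast; ring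
      rw [this]
      exact dvd_sub e2 (e1.mul_right _)
    have e4 : ((p ^ 2 : ℕ) : ℤ) ∣ h := by
      have : h = ((r : ℤ) + h) - r := by ring
      rw [this]
      exact dvd_sub (e1.trans hrh) e3
    have e5 : (p : ℤ) * p ∣ h := by
      have : ((p ^ 2 : ℕ) : ℤ) = (p : ℤ) * p := by push_cast; ring
      rwa [this] at e4
    have e6 := hh _ e5
    rw [Int.isUnit_iff] at e6
    have := hp.two_le
    omega
  · have e1 : p ∣ 4 * q ^ 2 * (r + 64 * q ^ 2 * v) - 1 := (Dvd.intro_left (p) (by ring)).trans hd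
    have e2 : p ∣ 4 * q ^ 2 * (r + 64 * q ^ 2 * v) :=
      (((Dvd.intro_left (p) (by ring)).trans hp2 : p ∣ 4 * q ^ 2)).mul_right _
    have e3 : p ∣ 1 := by
      have := (Nat.dvd_sub_iff_right (show 1 ≤ 4 * q ^ 2 * (r + 64 * q ^ 2 * v) by omega) e2).1 e1
      exact this
    exact hp.one_lt.ne' (Nat.dvd_one.1 e3)
  · have e1 : p ∣ 4 * q ^ 2 * (r + 64 * q ^ 2 * v) + 1 := (Dvd.intro_left (p) (by ring)).trans hd
    have e2 : p ∣ 4 * q ^ 2 * (r + 64 * q ^ 2 * v) :=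
      (((Dvd.intro_left (p) (by ring)).trans hp2 : p ∣ 4 * q ^ 2)).mul_right _
    have e3 : p ∣ 1 := (Nat.dvd_add_right e2).1 e1
    exact hp.one_lt.ne' (Nat.dvd_one.1 e3)

theorem goodZ_of_good {q r z v : ℕ} (h : Good q r v) : GoodZ q r z v := by
  intro p hp _ _ i hd
  have := h i p (by rwa [← sq])
  rw [Nat.isUnit_iff] at this
  exact hp.one_lt.ne' this

/-- the linear forms in `v` -/
theorem form_lin {q r : ℕ} (hq : 1 ≤ q) (hr : 1 ≤ r) (i : Fin 3) :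
    ∃ c d : ℕ, (∀ v, form q (r + 64 * q ^ 2 * v) i = c * v + d) ∧
      (∀ m : ℕ, Nat.Coprime m (2 * q) → Nat.Coprime c m) ∧ c + d ≤ 4 * q ^ 2 * (r + 64 * q ^ 2) + 1 := by
  have hcop : ∀ m : ℕ, Nat.Coprime m (2 * q) → Nat.Coprime (64 * q ^ 2) m ∧ Nat.Coprime (4 * q ^ 2 * (64 * q ^ 2)) m := by
    intro m hm
    have hm2 : Nat.Coprime m 2 := Nat.Coprime.coprime_mul_right_right hm
    have hmq : Nat.Coprime m q := Nat.Coprime.coprime_mul_left_right hm
    have h64 : Nat.Coprime m (64 * q ^ 2) := by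
      refine Nat.Coprime.mul_right ?_ (Nat.Coprime.pow_right _ hmq)
      exact (Nat.Coprime.pow_right 6 hm2 : Nat.Coprime m (2 ^ 6))
    have h4 : Nat.Coprime m (4 * q ^ 2) := by
      refine Nat.Coprime.mul_right ?_ (Nat.Coprime.pow_right _ hmq)
      exact (Nat.Coprime.pow_right 2 hm2 : Nat.Coprime m (2 ^ 2))
    exact ⟨h64.symm, (Nat.Coprime.mul_right h4 h64).symm⟩
  have hq2 : 1 ≤ q ^ 2 := Nat.one_le_pow _ _ hq
  have hb : r + 64 * q ^ 2 ≤ 4 * q ^ 2 * (r + 64 * q ^ 2) := by nlinarith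
  unfold form
  split_ifs with h0 h1
  · refine ⟨64 * q ^ 2, r, fun v => by ring, fun m hm => (hcop m hm).1, ?_⟩
    omega
  · refine ⟨4 * q ^ 2 * (64 * q ^ 2), 4 * q ^ 2 * r - 1, fun v => ?_, fun m hm => (hcop m hm).2, ?_⟩
    · have h4 := one_le_four hq hr
      have : 4 * q ^ 2 * (r + 64 * q ^ 2 * v) = 4 * q ^ 2 * (64 * q ^ 2) * v + 4 * q ^ 2 * r := by ring
      rw [this]
      omega
    · have : 4 * q ^ 2 * (r + 64 * q ^ 2) = 4 * q ^ 2 * (64 * q ^ 2) + 4 * q ^ 2 * r := by ring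
      omega
  · refine ⟨4 * q ^ 2 * (64 * q ^ 2), 4 * q ^ 2 * r + 1, fun v => by ring, fun m hm => (hcop m hm).2, ?_⟩
    have : 4 * q ^ 2 * (r + 64 * q ^ 2) = 4 * q ^ 2 * (64 * q ^ 2) + 4 * q ^ 2 * r := by ring
    omega

/-- the number of the `v < V` with `M ∣ c v + d` -/
theorem card_dvd {c d M V : ℕ} (hc : Nat.Coprime c M) :
    (((range V).filter fun v => M ∣ c * v + d).card : ℝ) ≤ V / M + 1 := by
  have h1 : ((range V).filter fun v => M ∣ c * v + d).card ≤ (range (V / M + 1)).card := by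
    refine Finset.card_le_card_of_injOn (fun v => v / M) ?_ ?_
    · intro v hv
      rw [Finset.mem_coe, mem_filter, mem_range] at hv
      rw [Finset.mem_coe, mem_range]
      exact Nat.lt_succ_of_le (Nat.div_le_div_right hv.1.le)
    · intro v hv w hw hvw
      rw [Finset.mem_coe, mem_filter] at hv hw
      have e1 : c * v + d ≡ c * w + d [MOD M] :=
        ((Nat.modEq_zero_iff_dvd.2 hv.2).trans (Nat.modEq_zero_iff_dvd.2 hw.2).symm)
      have e2 : c * v ≡ c * w [MOD M] := Nat.ModEq.add_right_cancel' d e1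
      have e3 : v ≡ w [MOD M] := Nat.ModEq.cancel_left_of_coprime (by rw [Nat.coprime_comm.1 hc]) e2
      have e4 : v % M = w % M := e3
      have hvw' : v / M = w / M := hvw
      rw [← Nat.div_add_mod v M, ← Nat.div_add_mod w M, e4, hvw']
  rw [card_range] at h1
  have h2 : (((range V).filter fun v => M ∣ c * v + d).card : ℝ) ≤ ((V / M + 1 : ℕ) : ℝ) := by
    exact_mod_cast h1
  refine h2.trans ?_
  push_cast
  have := @Nat.cast_div_le ℝ _ _ _ V M
  linarith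

theorem sum_odd (K : ℕ) : ∑ k ∈ Icc 1 K, (1 : ℝ) / (2 * k + 1) ^ 2 ≤ 1 / 4 := by
  have h : ∀ K : ℕ, ∑ k ∈ Icc 1 K, (1 : ℝ) / (2 * k + 1) ^ 2 ≤ 1 / 4 * (1 - 1 / ((K : ℝ) + 1)) := by
    intro K
    induction K with
    | zero => simp
    | succ K ih =>
      rw [Finset.sum_Icc_succ_top (by omega)]
      have h1 : (1 : ℝ) / (2 * ((K + 1 : ℕ) : ℝ) + 1) ^ 2 ≤ 1 / 4 * (1 / ((K : ℝ) + 1) - 1 / ((K : ℝ) + 2)) := by
        have hK : (0 : ℝ) ≤ K := Nat.cast_nonneg K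
        rw [div_sub_div _ _ (by positivity) (by positivity), div_mul_div_comm, div_le_div_iff₀ (by positivity) (by positivity)]
        push_cast
        nlinarith [mul_nonneg hK hK]
      have h2 : (((K + 1 : ℕ) : ℝ) + 1) = (K : ℝ) + 2 := by push_cast; ring
      rw [h2]
      linarith
  refine (h K).trans ?_
  have : (0 : ℝ) < 1 / ((K : ℝ) + 1) := by positivity
  linarith

theorem sum_tail {z : ℕ} (hz : 1 ≤ z) (K : ℕ) : ∑ k ∈ Ioc z K, (1 : ℝ) / k ^ 2 ≤ 1 / z := by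
  rcases le_or_gt K z with h | h
  · rw [Finset.Ioc_eq_empty (by omega)]
    simp
  · have h2 : ∀ K : ℕ, z ≤ K → ∑ k ∈ Ioc z K, (1 : ℝ) / k ^ 2 ≤ 1 / z - 1 / K := by
      intro K hK
      induction K, hK using Nat.le_induction with
      | base => simp
      | succ K hK ih =>
        rw [← Finset.insert_Ioc_right_eq_Ioc_add_one (by omega : z ≤ K), Finset.sum_insert (by simp)]
        have hK0 : (0 : ℝ) < K := by
          have : 0 < K := by omega
          exact_mod_cast this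
        have h1 : (1 : ℝ) / ((K + 1 : ℕ) : ℝ) ^ 2 ≤ 1 / K - 1 / ((K + 1 : ℕ) : ℝ) := by
          push_cast
          rw [div_sub_div _ _ hK0.ne' (by positivity), div_le_div_iff₀ (by positivity) (by positivity)]
          nlinarith
        linarith
    refine (h2 K h.le).trans ?_
    have : (0 : ℝ) ≤ 1 / (K : ℝ) := by positivity
    linarith

end Pool.Agent.K6.H90.CN
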