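import Pool.Agent.K6.H90.CN.Rec
import Pool.Agent.Results.MP_e00215_an.SpectralNiceRecurrence

/-!
# The finite form of nice recurrence
-/

set_option autoImplicit false

namespace Pool.Agent.K6.H90.CN

open MeasureTheory Finset Filter Topology
open Pool.Agent.Results.MP_e00215_an.SpectralNiceRecurrence

/-- the cyclic shift -/
def cyc (N : ℕ) (hN : 0 < N) (x : Fin N) : Fin N := ⟨(x.1 + 1) % N, Nat.mod_lt _ hN⟩

theorem cyc_iter (N : ℕ) (hN : 0 < N) (d : ℕ) (x : Fin N) : ((cyc N hN)^[d] x).1 = (x.1 + d) % N := by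
  induction d with
  | zero => simp [Nat.mod_eq_of_lt x.2]
  | succ d ih =>
    rw [Function.iterate_succ_apply']
    show (((cyc N hN)^[d] x).1 + 1) % N = _
    rw [ih, Nat.mod_add_mod, add_assoc]

theorem cyc_inj (N : ℕ) (hN : 0 < N) : Function.Injective (cyc N hN) := by
  intro x y h
  have h1 : (x.1 + 1) % N = (y.1 + 1) % N := congrArg Fin.val h
  have h2 : x.1 ≡ y.1 [MOD N] := Nat.ModEq.add_right_cancel' 1 h1
  have h3 : x.1 % N = y.1 % N := h2
  rw [Nat.mod_eq_of_lt x.2, Nat.mod_eq_of_lt y.2] at h3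
  exact Fin.ext h3

/-- the uniform measure -/
noncomputable def unif (N : ℕ) : Measure (Fin N) := (N : ENNReal)⁻¹ • Measure.count

theorem unif_apply (N : ℕ) (s : Finset (Fin N)) : unif N (s : Set (Fin N)) = (N : ENNReal)⁻¹ * s.card := by
  unfold unif
  rw [Measure.smul_apply, Measure.count_apply_finset, smul_eq_mul]

theorem unif_real (N : ℕ) (s : Finset (Fin N)) : (unif N (s : Set (Fin N))).toReal = s.card / N := by
  rw [unif_apply, ENNReal.toReal_mul, ENNReal.toReal_inv, ENNReal.toReal_natCast, ENNReal.toReal_natCast]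
  ring

instance unif_prob (N : ℕ) [NeZero N] : IsProbabilityMeasure (unif N) := by
  constructor
  have h := unif_apply N Finset.univ
  rw [Finset.coe_univ, Finset.card_univ, Fintype.card_fin] at h
  rw [h]
  exact ENNReal.inv_mul_cancel (by exact_mod_cast NeZero.ne N) (ENNReal.natCast_ne_top N)

theorem cyc_mp (N : ℕ) (hN : 0 < N) : MeasurePreserving (cyc N hN) (unif N) (unif N) := by
  refine ⟨Measurable.of_discrete, ?_⟩
  refine Measure.ext_of_singleton fun a => ?_
  rw [Measure.map_apply Measurable.of_discrete (measurableSet_singleton a)]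
  obtain ⟨b, hb⟩ := (Finite.injective_iff_surjective.1 (cyc_inj N hN)) a
  have h1 : cyc N hN ⁻¹' {a} = {b} := by
    ext x
    simp only [Set.mem_preimage, Set.mem_singleton_iff]
    constructor
    · intro h; exact cyc_inj N hN (h.trans hb.symm)
    · rintro rfl; exact hb
  rw [h1]
  have h2 := unif_apply N {a}
  have h3 := unif_apply N {b}
  rw [Finset.coe_singleton] at h2 h3
  rw [h2, h3, Finset.card_singleton, Finset.card_singleton]

/-- **The finite form**: for every `ε > 0` some finite subset `F` of `R` and `N₀` have the property that for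
`N ≥ N₀` and `A ⊆ {0, ..., N - 1}` some `d ∈ F` has at least `|A|²/N - ε N` numbers `x` with
`x, x + d ∈ A`. -/
theorem finite_form (R : Set ℕ) (h : UniformConditionalRecurrence.{0} R) (ε : ℝ) (hε : 0 < ε) :
    ∃ F : Finset ℕ, (∀ d ∈ F, d ∈ R) ∧ ∃ N₀ : ℕ, 1 ≤ N₀ ∧ ∀ N : ℕ, N₀ ≤ N → ∀ A : Finset ℕ, A ⊆ range N →
      ∃ d ∈ F, (A.card : ℝ) ^ 2 / N - ε * N ≤ ((A.filter fun x => x + d ∈ A).card : ℝ) := by
  classical
  obtain ⟨F, hF, hu⟩ := h (ε / 2) (by positivity)
  obtain ⟨N₁, hN₁⟩ := exists_nat_ge (((F.sup id : ℕ) : ℝ) / (ε / 2))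
  refine ⟨F, hF, max N₁ 1, le_max_right _ _, fun N hN A hA => ?_⟩
  have hN1 : 1 ≤ N := (le_max_right _ _).trans hN
  have hN0 : 0 < N := hN1
  have hNR : (0 : ℝ) < N := by exact_mod_cast hN1
  have : NeZero N := ⟨by omega⟩
  set A' : Finset (Fin N) := Finset.univ.filter fun x => x.1 ∈ A with hA'
  have hcard : A'.card = A.card := by
    refine Finset.card_bij (fun x _ => x.1) ?_ ?_ ?_
    · intro x hx
      exact (mem_filter.1 hx).2
    · intro x _ y _ hxy
      exact Fin.ext hxy
    · intro x hx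
      exact ⟨⟨x, mem_range.1 (hA hx)⟩, by rw [hA', mem_filter]; exact ⟨mem_univ _, hx⟩, rfl⟩
  have hAm : MeasurableSet (A' : Set (Fin N)) := A'.measurableSet
  have hfL : MemLp ((A' : Set (Fin N)).indicator (fun _ => (1:ℝ))) 2 (unif N) := (memLp_const _).indicator hAm
  obtain ⟨d, hd, hle⟩ := hu (Fin N) (unif N) (cyc N hN0) (cyc_mp N hN0) _ hfL
  refine ⟨d, hd, ?_⟩
  rw [Pool.Agent.Y254.NR.int_inter (cyc_mp N hN0) hAm d] at hle
  have h1 := Pool.Agent.Y254.NR.sq_measure_le_condExp (μ := unif N) (cyc N hN0) hAm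
  have h2 : ∫ x, (A' : Set (Fin N)).indicator (fun _ => (1:ℝ)) x ^ 2 ∂(unif N) ≤ 1 := by
    have h3 := Pool.Agent.Y254.NR.int_inter (cyc_mp N hN0) hAm 0
    simp only [Function.iterate_zero, id_eq, Set.preimage_id, Set.inter_self] at h3
    have h4 : ∫ x, (A' : Set (Fin N)).indicator (fun _ => (1:ℝ)) x ^ 2 ∂(unif N) = (unif N (A' : Set (Fin N))).toReal := by
      rw [← h3]
      exact integral_congr_ae (Filter.Eventually.of_forall fun x => sq _)
    rw [h4]
    exact ENNReal.toReal_le_of_le_ofReal zero_le_one (by simpa using prob_le_one (μ := unif N) (s := (A' : Set (Fin N))))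
  -- the intersection
  set I : Finset (Fin N) := Finset.univ.filter fun x => x.1 ∈ A ∧ (x.1 + d) % N ∈ A with hI
  have hIset : (A' : Set (Fin N)) ∩ (cyc N hN0)^[d] ⁻¹' (A' : Set (Fin N)) = (I : Set (Fin N)) := by
    ext x
    simp only [Set.mem_inter_iff, Set.mem_preimage, Finset.mem_coe, hA', hI, mem_filter, mem_univ, true_and, cyc_iter]
  rw [hIset, unif_real] at hle
  rw [unif_real, hcard] at h1
  have hIcard : I.card ≤ (A.filter fun x => x + d ∈ A).card + d := by
    have h3 : I.card ≤ ((A.filter fun x => x + d ∈ A) ∪ Ico (N - d) N).card := by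
      refine Finset.card_le_card_of_injOn (fun x => x.1) ?_ ?_
      · intro x hx
        rw [Finset.mem_coe, hI, mem_filter] at hx
        rw [Finset.mem_coe, mem_union]
        by_cases hxd : x.1 + d < N
        · left
          rw [mem_filter]
          refine ⟨hx.2.1, ?_⟩
          have := hx.2.2
          rwa [Nat.mod_eq_of_lt hxd] at this
        · right
          rw [mem_Ico]
          show N - d ≤ x.1 ∧ x.1 < N
          have := x.2
          omega
      · intro x _ y _ hxy
        exact Fin.ext hxy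
    refine h3.trans ((card_union_le _ _).trans ?_)
    rw [Nat.card_Ico]
    omega
  have hdN : (d : ℝ) ≤ ε / 2 * N := by
    have h3 : d ≤ F.sup id := Finset.le_sup (f := id) hd
    have h4 : (N₁ : ℝ) ≤ N := by exact_mod_cast (le_max_left _ _).trans hN
    rw [div_le_iff₀ (by positivity)] at hN₁
    have h5 : (d : ℝ) ≤ ((F.sup id : ℕ) : ℝ) := by exact_mod_cast h3
    nlinarith
  have h6 : ε / 2 * ∫ x, (A' : Set (Fin N)).indicator (fun _ => (1:ℝ)) x ^ 2 ∂(unif N) ≤ ε / 2 * 1 := by gcongr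
  have h7 : ((A.card : ℝ) / N) ^ 2 - ε / 2 ≤ (I.card : ℝ) / N := by linarith
  have h8 : (I.card : ℝ) ≤ ((A.filter fun x => x + d ∈ A).card : ℝ) + d := by exact_mod_cast hIcard
  have h9 : (((A.card : ℝ) / N) ^ 2 - ε / 2) * N ≤ (I.card : ℝ) := by
    rwa [le_div_iff₀ hNR] at h7
  have h10 : (((A.card : ℝ) / N) ^ 2 - ε / 2) * N = (A.card : ℝ) ^ 2 / N - ε / 2 * N := by
    field_simp
  linarith

end Pool.Agent.K6.H90.CN
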