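import Pool.Agent.H332R2.Lit.Glas

/-!
# The kernels `∏ cos (π x_i) ^ (2 ν_i)`
-/

set_option autoImplicit false

namespace Pool.Agent.K6.H90.CN

open Finset Filter Topology
open Pool.Agent.H332R2.Lit (e e_add norm_e)

/-- the weights -/
noncomputable def w (ν l : ℕ) : ℝ := ((2 * ν).choose l : ℝ) / 4 ^ ν

theorem w_nonneg (ν l : ℕ) : 0 ≤ w ν l := by unfold w; positivity

theorem w_le_one (ν l : ℕ) : w ν l ≤ 1 := by
  unfold w
  rw [div_le_one (by positivity)]
  have h : (2 * ν).choose l ≤ 2 ^ (2 * ν) := Nat.choose_le_two_pow _ _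
  rw [pow_mul] at h
  exact_mod_cast h

theorem cos_pow (ν : ℕ) (t : ℝ) :
    (((Real.cos (Real.pi * t)) ^ (2 * ν) : ℝ) : ℂ) = ∑ l ∈ range (2 * ν + 1), (w ν l : ℂ) * e (((l : ℝ) - ν) * t) := by
  push_cast
  rw [Complex.cos, div_pow, add_pow, Finset.sum_div]
  refine Finset.sum_congr rfl fun l hl => ?_
  rw [mem_range] at hl
  have h1 : Complex.exp (↑Real.pi * ↑t * Complex.I) ^ l * Complex.exp (-(↑Real.pi * ↑t) * Complex.I) ^ (2 * ν - l) =
      e (((l : ℝ) - ν) * t) := by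
    unfold e
    rw [← Complex.exp_nat_mul, ← Complex.exp_nat_mul, ← Complex.exp_add, Nat.cast_sub (by omega)]
    congr 1
    push_cast
    ring
  rw [h1]
  unfold w
  push_cast
  rw [pow_mul, show ((2 : ℂ) ^ 2) = 4 by norm_num]
  ring

theorem e_sum {ι : Type*} (s : Finset ι) (a : ι → ℝ) : e (∑ i ∈ s, a i) = ∏ i ∈ s, e (a i) := by
  classical
  induction s using Finset.induction_on with
  | empty => simp [e]
  | insert i s hi ih => rw [Finset.sum_insert hi, Finset.prod_insert hi, e_add, ih]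

/-- the kernel -/
noncomputable def T {k : ℕ} (ν : Fin k → ℕ) (x : Fin k → ℝ) : ℝ := ∏ i, (Real.cos (Real.pi * x i)) ^ (2 * ν i)

/-- the index set of the expansion -/
def idx {k : ℕ} (ν : Fin k → ℕ) : Finset (Fin k → ℕ) := Fintype.piFinset fun i => range (2 * ν i + 1)

/-- the frequencies -/
def fr {k : ℕ} (ν : Fin k → ℕ) (p : Fin k → ℕ) : Fin k → ℤ := fun i => (p i : ℤ) - ν i

/-- the weights of the expansion -/
noncomputable def W {k : ℕ} (ν : Fin k → ℕ) (p : Fin k → ℕ) : ℝ := ∏ i, w (ν i) (p i)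

theorem W_nonneg {k : ℕ} (ν : Fin k → ℕ) (p : Fin k → ℕ) : 0 ≤ W ν p := Finset.prod_nonneg fun i _ => w_nonneg _ _

theorem W_le_one {k : ℕ} (ν : Fin k → ℕ) (p : Fin k → ℕ) : W ν p ≤ 1 :=
  Finset.prod_le_one (fun _ _ => w_nonneg _ _) fun _ _ => w_le_one _ _

theorem T_expand {k : ℕ} (ν : Fin k → ℕ) (x : Fin k → ℝ) :
    ((T ν x : ℝ) : ℂ) = ∑ p ∈ idx ν, (W ν p : ℂ) * e (∑ i, (fr ν p i : ℝ) * x i) := by
  unfold T idx
  rw [Complex.ofReal_prod]
  simp only [cos_pow]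
  rw [Finset.prod_univ_sum]
  refine Finset.sum_congr rfl fun p _ => ?_
  rw [Finset.prod_mul_distrib, e_sum]
  unfold W fr
  push_cast
  rfl

theorem T_nonneg {k : ℕ} (ν : Fin k → ℕ) (x : Fin k → ℝ) : 0 ≤ T ν x :=
  Finset.prod_nonneg fun i _ => by rw [pow_mul]; positivity

theorem cos_pow_le (ν : ℕ) (t : ℝ) : (Real.cos t) ^ (2 * ν) ≤ 1 := by
  rw [pow_mul]
  exact pow_le_one₀ (sq_nonneg _) (by nlinarith [Real.sin_sq_add_cos_sq t, sq_nonneg (Real.sin t)])

theorem T_le_one {k : ℕ} (ν : Fin k → ℕ) (x : Fin k → ℝ) : T ν x ≤ 1 :=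
  Finset.prod_le_one (fun i _ => by rw [pow_mul]; positivity) fun i _ => cos_pow_le _ _

theorem center_mem {k : ℕ} (ν : Fin k → ℕ) : ν ∈ idx ν := by
  unfold idx
  rw [Fintype.mem_piFinset]
  intro i
  rw [mem_range]
  omega

theorem fr_center {k : ℕ} (ν : Fin k → ℕ) : fr ν ν = 0 := by
  funext i
  simp [fr]

theorem fr_ne {k : ℕ} {ν p : Fin k → ℕ} (h : p ≠ ν) : fr ν p ≠ 0 := by
  intro h0
  refine h (funext fun i => ?_)
  have := congrFun h0 i
  unfold fr at this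
  simp only [Pi.zero_apply] at this
  omega

/-- `C(2N, N)/4^N ≥ 1/(2 √N)` -/
theorem w_center (N : ℕ) (hN : 1 ≤ N) : 1 / (4 * (N : ℝ)) ≤ (w N N) ^ 2 := by
  induction N, hN using Nat.le_induction with
  | base => unfold w; norm_num [Nat.choose]
  | succ N hN ih =>
    have h0 : (0 : ℝ) < N := by exact_mod_cast (show 0 < N by omega)
    have h1 : w (N + 1) (N + 1) = w N N * ((2 * N + 1) / (2 * N + 2)) := by
      have h2 := Nat.succ_mul_centralBinom_succ N
      rw [Nat.centralBinom_eq_two_mul_choose, Nat.centralBinom_eq_two_mul_choose] at h2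
      have h3 : ((N : ℝ) + 1) * ((2 * (N + 1)).choose (N + 1) : ℝ) = 2 * (2 * N + 1) * ((2 * N).choose N : ℝ) := by
        exact_mod_cast h2
      unfold w
      rw [div_mul_div_comm, div_eq_div_iff (by positivity) (by positivity), pow_succ]
      calc ((2 * (N + 1)).choose (N + 1) : ℝ) * (4 ^ N * (2 * N + 2)) =
            2 * 4 ^ N * (((N : ℝ) + 1) * ((2 * (N + 1)).choose (N + 1) : ℝ)) := by ring
        _ = _ := by rw [h3]; ring
    rw [h1, mul_pow]
    push_cast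
    calc 1 / (4 * ((N : ℝ) + 1)) ≤ 1 / (4 * N) * ((2 * N + 1) / (2 * N + 2)) ^ 2 := by
          rw [div_pow, div_mul_div_comm, div_le_div_iff₀ (by positivity) (by positivity)]
          nlinarith
      _ ≤ _ := mul_le_mul_of_nonneg_right ih (by positivity)

theorem w_succ (N : ℕ) : w (N + 1) (N + 1) = w N N * ((2 * N + 1) / (2 * N + 2)) := by
  have h2 := Nat.succ_mul_centralBinom_succ N
  rw [Nat.centralBinom_eq_two_mul_choose, Nat.centralBinom_eq_two_mul_choose] at h2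
  have h3 : ((N : ℝ) + 1) * ((2 * (N + 1)).choose (N + 1) : ℝ) = 2 * (2 * N + 1) * ((2 * N).choose N : ℝ) := by
    exact_mod_cast h2
  unfold w
  rw [div_mul_div_comm, div_eq_div_iff (by positivity) (by positivity), pow_succ]
  calc ((2 * (N + 1)).choose (N + 1) : ℝ) * (4 ^ N * (2 * N + 2)) =
        2 * 4 ^ N * (((N : ℝ) + 1) * ((2 * (N + 1)).choose (N + 1) : ℝ)) := by ring
    _ = _ := by rw [h3]; ring

/-- outside the box the sine is large -/
theorem sin_large {δ t : ℝ} (hδ0 : 0 < δ) (hδ : δ ≤ 1 / 2) (ht : δ < |t - round t|) :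
    (Real.sin (Real.pi * δ)) ^ 2 ≤ (Real.sin (Real.pi * t)) ^ 2 := by
  set y := |t - round t| with hy
  have hy2 : y ≤ 1 / 2 := abs_sub_round t
  have h1 : (Real.sin (Real.pi * t)) ^ 2 = (Real.sin (Real.pi * y)) ^ 2 := by
    have h2 : Real.pi * t = Real.pi * (t - round t) + (round t : ℤ) * Real.pi := by ring
    have h3 : (Real.sin (Real.pi * t)) ^ 2 = (Real.sin (Real.pi * (t - round t))) ^ 2 := by
      rw [h2, Real.sin_add_int_mul_pi, mul_pow]
      have h4 : ((-1 : ℝ) ^ (round t : ℤ)) ^ 2 = 1 := by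
        rw [← zpow_natCast, ← zpow_mul, mul_comm, zpow_mul]
        norm_num
      rw [h4, one_mul]
    rw [h3, hy]
    rcases abs_choice (t - round t) with h5 | h5
    · rw [h5]
    · rw [h5, mul_neg, Real.sin_neg, neg_sq]
  rw [h1]
  have hpi := Real.pi_pos
  have h6 : Real.sin (Real.pi * δ) ≤ Real.sin (Real.pi * y) :=
    Real.sin_le_sin_of_le_of_le_pi_div_two (by nlinarith) (by nlinarith) (by nlinarith)
  have h7 : 0 ≤ Real.sin (Real.pi * δ) := Real.sin_nonneg_of_nonneg_of_le_pi (by positivity) (by nlinarith)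
  exact pow_le_pow_left₀ h7 h6 2

theorem sin_lower {δ : ℝ} (hδ0 : 0 < δ) (hδ : δ ≤ 1 / 2) : 4 * δ ^ 2 ≤ (Real.sin (Real.pi * δ)) ^ 2 := by
  have hpi := Real.pi_pos
  have h1 := Real.mul_le_sin (show 0 ≤ Real.pi * δ by positivity) (by nlinarith)
  have h2 : 2 / Real.pi * (Real.pi * δ) = 2 * δ := by field_simp
  rw [h2] at h1
  calc 4 * δ ^ 2 = (2 * δ) ^ 2 := by ring
    _ ≤ _ := pow_le_pow_left₀ (by positivity) h1 2

/-- off the box the kernel is small -/
theorem T_small {k : ℕ} (N : ℕ) {δ : ℝ} (hδ0 : 0 < δ) (hδ : δ ≤ 1 / 2) {x : Fin k → ℝ}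
    (hx : ∃ i, δ < |x i - round (x i)|) : T (fun _ => N) x ≤ (1 - 4 * δ ^ 2) ^ N := by
  obtain ⟨i, hi⟩ := hx
  unfold T
  rw [← Finset.mul_prod_erase _ _ (mem_univ i)]
  have h1 : ∏ j ∈ univ.erase i, Real.cos (Real.pi * x j) ^ (2 * N) ≤ 1 :=
    Finset.prod_le_one (fun i _ => by rw [pow_mul]; positivity) fun i _ => cos_pow_le _ _
  have h2 : Real.cos (Real.pi * x i) ^ (2 * N) ≤ (1 - 4 * δ ^ 2) ^ N := by
    rw [pow_mul]
    refine pow_le_pow_left₀ (sq_nonneg _) ?_ N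
    have := Real.sin_sq_add_cos_sq (Real.pi * x i)
    have := sin_large hδ0 hδ hi
    have := sin_lower hδ0 hδ
    linarith
  have h3 : 0 ≤ Real.cos (Real.pi * x i) ^ (2 * N) := by rw [pow_mul]; positivity
  calc _ ≤ Real.cos (Real.pi * x i) ^ (2 * N) * 1 := mul_le_mul_of_nonneg_left h1 h3
    _ = Real.cos (Real.pi * x i) ^ (2 * N) := mul_one _
    _ ≤ _ := h2

/-- the minorant of the box -/
theorem T_minorant {k : ℕ} (N : ℕ) {δ : ℝ} (hδ0 : 0 < δ) (hδ : δ ≤ 1 / 2) (x : Fin k → ℝ) :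
    T (fun _ => N) x - (∑ i, (T (fun _ => N) x - T (fun j => if j = i then N + 1 else N) x)) / (4 * δ ^ 2) ≤
      if ∀ i, |x i - round (x i)| ≤ δ then 1 else 0 := by
  have hT : ∀ i, T (fun _ => N) x - T (fun j => if j = i then N + 1 else N) x =
      T (fun _ => N) x * (Real.sin (Real.pi * x i)) ^ 2 := by
    intro i
    have h1 : T (fun j => if j = i then N + 1 else N) x = T (fun _ => N) x * (Real.cos (Real.pi * x i)) ^ 2 := by
      unfold T
      rw [← Finset.mul_prod_erase _ _ (mem_univ i), ← Finset.mul_prod_erase univ (fun j => Real.cos (Real.pi * x j) ^ (2 * N)) (mem_univ i)]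
      have h2 : ∏ j ∈ univ.erase i, Real.cos (Real.pi * x j) ^ (2 * if j = i then N + 1 else N) =
          ∏ j ∈ univ.erase i, Real.cos (Real.pi * x j) ^ (2 * N) :=
        Finset.prod_congr rfl fun j hj => by rw [if_neg (Finset.ne_of_mem_erase hj)]
      rw [h2]
      simp only [if_true]
      ring
    rw [h1]
    have := Real.sin_sq_add_cos_sq (Real.pi * x i)
    have h3 : Real.sin (Real.pi * x i) ^ 2 = 1 - Real.cos (Real.pi * x i) ^ 2 := by linarith
    rw [h3]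
    ring
  simp only [hT]
  have h0 := T_nonneg (fun _ : Fin k => N) x
  have h1 := T_le_one (fun _ : Fin k => N) x
  have hnn : ∀ i, 0 ≤ T (fun _ => N) x * (Real.sin (Real.pi * x i)) ^ 2 := fun i => mul_nonneg h0 (sq_nonneg _)
  split_ifs with hbox
  · have : 0 ≤ (∑ i, T (fun _ => N) x * (Real.sin (Real.pi * x i)) ^ 2) / (4 * δ ^ 2) :=
      div_nonneg (Finset.sum_nonneg fun i _ => hnn i) (by positivity)
    linarith
  · push Not at hbox
    obtain ⟨i, hi⟩ := hbox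
    have h2 := sin_large hδ0 hδ hi
    have h3 := sin_lower hδ0 hδ
    have h4 : T (fun _ => N) x * (Real.sin (Real.pi * x i)) ^ 2 ≤ ∑ i, T (fun _ => N) x * (Real.sin (Real.pi * x i)) ^ 2 :=
      Finset.single_le_sum (fun j _ => hnn j) (mem_univ i)
    have h5 : T (fun _ => N) x * (4 * δ ^ 2) ≤ T (fun _ => N) x * (Real.sin (Real.pi * x i)) ^ 2 :=
      mul_le_mul_of_nonneg_left (h3.trans h2) h0
    have h6 : T (fun _ => N) x ≤ (∑ i, T (fun _ => N) x * (Real.sin (Real.pi * x i)) ^ 2) / (4 * δ ^ 2) := by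
      rw [le_div_iff₀ (by positivity)]
      linarith
    linarith

end Pool.Agent.K6.H90.CN
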