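import Pool.Agent.K6.H90.CN.Rec
import Pool.Agent.K6.H90.CN.Kernel

/-!
# Several polynomial phases at squarefree congruent numbers
-/

set_option autoImplicit false

namespace Pool.Agent.K6.H90.CN

open Finset Filter Topology Polynomial
open Pool.Agent.H332R2.Lit (e e_add norm_e)

/-- integer combinations -/
noncomputable def comb {k : ℕ} (f : Fin k → ℝ[X]) (z : Fin k → ℤ) : ℝ[X] := ∑ i, C (z i : ℝ) * f i

theorem coeff_comb {k : ℕ} (f : Fin k → ℝ[X]) (z : Fin k → ℤ) (j : ℕ) :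
    (comb f z).coeff j = ∑ i, (z i : ℝ) * (f i).coeff j := by
  unfold comb
  rw [finsetSum_coeff]
  simp

theorem eval_comb {k : ℕ} (f : Fin k → ℝ[X]) (z : Fin k → ℤ) (x : ℝ) :
    (comb f z).eval x = ∑ i, (z i : ℝ) * (f i).eval x := by
  unfold comb
  rw [eval_finsetSum]
  simp

/-- every nonzero integer combination has an irrational nonconstant coefficient -/
def Indep {k : ℕ} (f : Fin k → ℝ[X]) : Prop :=
  ∀ z : Fin k → ℤ, z ≠ 0 → ∃ j, 1 ≤ j ∧ Irrational (∑ i, (z i : ℝ) * (f i).coeff j)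

theorem rat_const (F : ℝ[X]) (hF : ∀ j, 1 ≤ j → ¬ Irrational (F.coeff j)) :
    ∃ Q : ℕ, 1 ≤ Q ∧ ∀ a b : ℤ, (Q : ℤ) ∣ a - b → ∃ c : ℤ, F.eval (a : ℝ) - F.eval (b : ℝ) = c := by
  set N := F.natDegree with hN
  have hrat : ∀ i, 1 ≤ i → ∃ a : ℚ, F.coeff i = (a : ℝ) := by
    intro i hi
    have h1 := hF i hi
    unfold Irrational at h1
    rw [not_not] at h1
    obtain ⟨a, ha⟩ := h1
    exact ⟨a, ha.symm⟩
  choose! a ha using hrat
  set Q : ℕ := ∏ i ∈ Ico 1 (N + 1), (a i).den with hQ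
  have hQ1 : 1 ≤ Q := by
    rw [hQ]
    exact Nat.one_le_iff_ne_zero.2 (Finset.prod_ne_zero_iff.2 fun i _ => (a i).den_ne_zero)
  have hQint : ∀ i ∈ Ico 1 (N + 1), ∃ b : ℤ, F.coeff i * (Q : ℝ) = (b : ℝ) := by
    intro i hi
    rw [mem_Ico] at hi
    have h1 : (a i).den ∣ Q := Finset.dvd_prod_of_mem _ (mem_Ico.2 hi)
    obtain ⟨c, hc⟩ := h1
    refine ⟨(a i).num * c, ?_⟩
    rw [ha i (by omega), hc]
    push_cast
    have h2 : ((a i : ℚ) : ℝ) * ((a i).den : ℝ) = ((a i).num : ℝ) := by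
      have := Rat.mul_den_eq_num (a i)
      exact_mod_cast congrArg (fun x : ℚ => (x : ℝ)) this
    rw [← mul_assoc, h2]
  refine ⟨Q, hQ1, fun x y hxy => ?_⟩
  have hsplit : ∀ x : ℝ, F.eval x = F.coeff 0 + ∑ i ∈ Ico 1 (N + 1), F.coeff i * x ^ i := by
    intro x
    rw [eval_eq_sum_range, ← Finset.sum_range_add_sum_Ico _ (show 1 ≤ N + 1 by omega)]
    simp
  have h2 : ∀ i ∈ Ico 1 (N + 1), ∃ m : ℤ, F.coeff i * (x : ℝ) ^ i - F.coeff i * (y : ℝ) ^ i = (m : ℝ) := by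
    intro i hi
    obtain ⟨b, hb⟩ := hQint i hi
    obtain ⟨c, hc⟩ := hxy.trans (sub_dvd_pow_sub_pow x y i)
    refine ⟨b * c, ?_⟩
    have h5 : (x : ℝ) ^ i - (y : ℝ) ^ i = (Q : ℝ) * c := by exact_mod_cast congrArg (fun x : ℤ => (x : ℝ)) hc
    rw [← mul_sub, h5]
    push_cast
    rw [← hb]
    ring
  choose! m hm using h2
  refine ⟨∑ i ∈ Ico 1 (N + 1), m i, ?_⟩
  rw [hsplit, hsplit, add_sub_add_left_eq_sub, ← Finset.sum_sub_distrib, Finset.sum_congr rfl hm]
  push_cast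
  rfl

/-- the member of the family as a real number -/
noncomputable def nv (q r v : ℕ) : ℝ := (fam q (r + 64 * q ^ 2 * v) : ℝ)

theorem sum_T {k : ℕ} (ν : Fin k → ℕ) (f : Fin k → ℝ[X]) (β : Fin k → ℝ) (q r : ℕ) (G : Finset ℕ) :
    ((∑ v ∈ G, T ν (fun i => (f i).eval (nv q r v) - β i) : ℝ) : ℂ) =
      ∑ p ∈ idx ν, (W ν p : ℂ) * (e (-∑ i, (fr ν p i : ℝ) * β i) *
        ∑ v ∈ G, e ((comb f (fr ν p)).eval (nv q r v))) := by
  rw [Complex.ofReal_sum]
  simp only [T_expand]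
  rw [Finset.sum_comm]
  refine Finset.sum_congr rfl fun p _ => ?_
  rw [← Finset.mul_sum, Finset.mul_sum (f := fun v => e ((comb f (fr ν p)).eval (nv q r v)))]
  congr 1
  refine Finset.sum_congr rfl fun v _ => ?_
  rw [← e_add, eval_comb]
  congr 1
  simp only [mul_sub, Finset.sum_sub_distrib]
  ring

theorem small_sum {q r : ℕ} {h : ℤ} (D : Data q r h) [DecidablePred (Good q r)] (F : ℝ[X])
    (hF : ∃ j, 1 ≤ j ∧ Irrational (F.coeff j)) (ε : ℝ) (hε : 0 < ε) :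
    ∃ V₀ : ℕ, ∀ V : ℕ, V₀ ≤ V → ‖∑ v ∈ (range V).filter fun v => Good q r v, e (F.eval (nv q r v))‖ ≤ ε * V := by
  obtain ⟨V₀, hV₀⟩ := (Metric.tendsto_atTop.1 (mean_phase D F hF)) ε hε
  refine ⟨max V₀ 1, fun V hV => ?_⟩
  have h1 := hV₀ V ((le_max_left _ _).trans hV)
  have hV1 : 1 ≤ V := (le_max_right _ _).trans hV
  have hV0 : (0 : ℝ) < V := by exact_mod_cast hV1
  rw [dist_zero_right, norm_div, Complex.norm_natCast, div_lt_iff₀ hV0] at h1
  exact h1.le

/-- **The mean of the kernel**, uniformly in the shift, for independent polynomials -/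
theorem uniform_mean {q r : ℕ} {h : ℤ} (D : Data q r h) [DecidablePred (Good q r)] {k : ℕ} (f : Fin k → ℝ[X])
    (hf : Indep f) (ν : Fin k → ℕ) (ε : ℝ) (hε : 0 < ε) :
    ∃ V₀ : ℕ, ∀ V : ℕ, V₀ ≤ V → ∀ β : Fin k → ℝ,
      |∑ v ∈ (range V).filter (fun v => Good q r v), T ν (fun i => (f i).eval (nv q r v) - β i) -
        W ν ν * ((range V).filter fun v => Good q r v).card| ≤ ε * V := by
  classical
  set ε' := ε / ((idx ν).card + 1) with hε'
  have hε'0 : 0 < ε' := by positivity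
  have h1 : ∀ p, ∃ V₀ : ℕ, p ≠ ν → ∀ V : ℕ, V₀ ≤ V →
      ‖∑ v ∈ (range V).filter fun v => Good q r v, e ((comb f (fr ν p)).eval (nv q r v))‖ ≤ ε' * V := by
    intro p
    by_cases hp : p = ν
    · exact ⟨0, fun h => absurd hp h⟩
    · obtain ⟨j, hj, hirr⟩ := hf _ (fr_ne hp)
      obtain ⟨V₀, hV₀⟩ := small_sum D (comb f (fr ν p)) ⟨j, hj, by rw [coeff_comb]; exact hirr⟩ ε' hε'0
      exact ⟨V₀, fun _ => hV₀⟩
  choose V₀ hV₀ using h1
  refine ⟨(idx ν).sup V₀, fun V hV β => ?_⟩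
  set G := (range V).filter fun v => Good q r v with hG
  have h2 := sum_T ν f β q r G
  rw [← Finset.add_sum_erase _ _ (center_mem ν)] at h2
  have h3 : (e (-∑ i, (fr ν ν i : ℝ) * β i) * ∑ v ∈ G, e ((comb f (fr ν ν)).eval (nv q r v))) = (G.card : ℂ) := by
    have h4 : ∀ v, (comb f (fr ν ν)).eval (nv q r v) = 0 := by
      intro v
      rw [eval_comb, fr_center]
      simp
    have h5 : e 0 = 1 := by simp [e]
    simp only [h4, h5]
    rw [fr_center]
    simp [h5]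
  rw [h3] at h2
  have h6 : ((∑ v ∈ G, T ν (fun i => (f i).eval (nv q r v) - β i) - W ν ν * G.card : ℝ) : ℂ) =
      ∑ p ∈ (idx ν).erase ν, (W ν p : ℂ) * (e (-∑ i, (fr ν p i : ℝ) * β i) *
        ∑ v ∈ G, e ((comb f (fr ν p)).eval (nv q r v))) := by
    rw [Complex.ofReal_sub, h2]
    push_cast
    ring
  rw [← Real.norm_eq_abs, ← Complex.norm_real, h6]
  calc _ ≤ ∑ p ∈ (idx ν).erase ν, ‖(W ν p : ℂ) * (e (-∑ i, (fr ν p i : ℝ) * β i) *
        ∑ v ∈ G, e ((comb f (fr ν p)).eval (nv q r v)))‖ := norm_sum_le _ _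
    _ ≤ ∑ _p ∈ (idx ν).erase ν, ε' * V := by
        refine Finset.sum_le_sum fun p hp => ?_
        rw [norm_mul, norm_mul, norm_e, one_mul, Complex.norm_real, Real.norm_of_nonneg (W_nonneg ν p)]
        have h7 := hV₀ p (Finset.ne_of_mem_erase hp) V ((Finset.le_sup (Finset.mem_of_mem_erase hp)).trans hV)
        calc W ν p * _ ≤ 1 * (ε' * V) := mul_le_mul (W_le_one ν p) h7 (norm_nonneg _) zero_le_one
          _ = _ := one_mul _
    _ = ((idx ν).erase ν).card * (ε' * V) := by rw [sum_const, nsmul_eq_mul]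
    _ ≤ ((idx ν).card + 1) * (ε' * V) := by
        refine mul_le_mul_of_nonneg_right ?_ (by positivity)
        have := Finset.card_le_card (Finset.erase_subset ν (idx ν))
        have h8 : (((idx ν).erase ν).card : ℝ) ≤ (idx ν).card := by exact_mod_cast this
        linarith
    _ = ε * V := by
        rw [hε']
        field_simp

/-- **The mean of the kernel at `f(h)`** -/
theorem lower_mean {k : ℕ} (f : Fin k → ℝ[X]) (ν : Fin k → ℕ) :
    ∃ Q : ℕ, 1 ≤ Q ∧ ∀ (q r : ℕ) (h : ℤ) (_ : Data q r h) [DecidablePred (Good q r)], Q ∣ q → ∀ ε : ℝ, 0 < ε →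
      ∃ V₀ : ℕ, ∀ V : ℕ, V₀ ≤ V →
        W ν ν * ((range V).filter fun v => Good q r v).card - ε * V ≤
          ∑ v ∈ (range V).filter (fun v => Good q r v), T ν (fun i => (f i).eval (nv q r v) - (f i).eval (h : ℝ)) := by
  classical
  have hQ : ∀ p : Fin k → ℕ, ∃ Q : ℕ, 1 ≤ Q ∧ ((∀ j, 1 ≤ j → ¬ Irrational ((comb f (fr ν p)).coeff j)) →
      ∀ a b : ℤ, (Q : ℤ) ∣ a - b → ∃ c : ℤ, (comb f (fr ν p)).eval (a : ℝ) - (comb f (fr ν p)).eval (b : ℝ) = c) := by
    intro p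
    by_cases hp : ∀ j, 1 ≤ j → ¬ Irrational ((comb f (fr ν p)).coeff j)
    · obtain ⟨Q, h1, h2⟩ := rat_const _ hp
      exact ⟨Q, h1, fun _ => h2⟩
    · exact ⟨1, le_rfl, fun h => absurd h hp⟩
  choose Q hQ1 hQ2 using hQ
  refine ⟨∏ p ∈ idx ν, Q p, Nat.one_le_iff_ne_zero.2 (Finset.prod_ne_zero_iff.2 fun p _ => by have := hQ1 p; omega),
    fun q r h D _ hq ε hε => ?_⟩
  set ε' := ε / ((idx ν).card + 1) with hε'
  have hε'0 : 0 < ε' := by positivity
  have h1 : ∀ p, ∃ V₀ : ℕ, (¬ ∀ j, 1 ≤ j → ¬ Irrational ((comb f (fr ν p)).coeff j)) → ∀ V : ℕ, V₀ ≤ V →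
      ‖∑ v ∈ (range V).filter fun v => Good q r v, e ((comb f (fr ν p)).eval (nv q r v))‖ ≤ ε' * V := by
    intro p
    by_cases hp : ∀ j, 1 ≤ j → ¬ Irrational ((comb f (fr ν p)).coeff j)
    · exact ⟨0, fun h => absurd hp h⟩
    · have hp' := hp
      push Not at hp'
      obtain ⟨V₀, hV₀⟩ := small_sum D (comb f (fr ν p)) hp' ε' hε'0
      exact ⟨V₀, fun _ => hV₀⟩
  choose V₀ hV₀ using h1
  refine ⟨(idx ν).sup V₀, fun V hV => ?_⟩
  set G := (range V).filter fun v => Good q r v with hG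
  have h2 := sum_T ν f (fun i => (f i).eval (h : ℝ)) q r G
  -- the terms
  set E : (Fin k → ℕ) → ℂ := fun p => (e (-∑ i, (fr ν p i : ℝ) * (f i).eval (h : ℝ)) *
        ∑ v ∈ G, e ((comb f (fr ν p)).eval (nv q r v))) with hE
  have hrat : ∀ p ∈ idx ν, (∀ j, 1 ≤ j → ¬ Irrational ((comb f (fr ν p)).coeff j)) → E p = (G.card : ℂ) := by
    intro p hp hr
    have h3 : ∀ v, e (-∑ i, (fr ν p i : ℝ) * (f i).eval (h : ℝ)) * e ((comb f (fr ν p)).eval (nv q r v)) = 1 := by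
      intro v
      rw [← e_add, ← eval_comb]
      have h4 : (Q p : ℤ) ∣ (fam q (r + 64 * q ^ 2 * v) : ℤ) - h := by
        have h5 : (Q p : ℤ) ∣ (q : ℤ) := by exact_mod_cast (Finset.dvd_prod_of_mem Q hp).trans hq
        refine h5.trans (Dvd.dvd.trans ⟨8, ?_⟩ (fam_mod D v))
        push_cast
        ring
      obtain ⟨c, hc⟩ := hQ2 p hr _ _ h4
      have h6 : -(comb f (fr ν p)).eval (h : ℝ) + (comb f (fr ν p)).eval (nv q r v) = (c : ℝ) := by
        rw [← hc]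
        unfold nv
        push_cast
        ring
      rw [h6, e_int]
    rw [hE]
    simp only [Finset.mul_sum, h3]
    simp
  have hre : ∑ v ∈ G, T ν (fun i => (f i).eval (nv q r v) - (f i).eval (h : ℝ)) = ∑ p ∈ idx ν, W ν p * (E p).re := by
    have h3 := congrArg Complex.re h2
    rw [Complex.ofReal_re, Complex.re_sum] at h3
    rw [h3]
    refine Finset.sum_congr rfl fun p _ => ?_
    rw [Complex.re_ofReal_mul]
  rw [hre, ← Finset.add_sum_erase _ _ (center_mem ν)]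
  have hc : (E ν).re = G.card := by
    rw [hrat ν (center_mem ν)]
    · simp
    · intro j _ hirr
      rw [coeff_comb, fr_center] at hirr
      simp at hirr
  rw [hc]
  have hlow : ∀ p ∈ (idx ν).erase ν, -(ε' * V) ≤ W ν p * (E p).re := by
    intro p hp
    have hpm := Finset.mem_of_mem_erase hp
    by_cases hr : ∀ j, 1 ≤ j → ¬ Irrational ((comb f (fr ν p)).coeff j)
    · rw [hrat p hpm hr]
      have h3 : 0 ≤ W ν p * ((G.card : ℂ)).re := by
        simp only [Complex.natCast_re]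
        exact mul_nonneg (W_nonneg ν p) (Nat.cast_nonneg _)
      have h4 : 0 ≤ ε' * V := by positivity
      linarith
    · have h7 := hV₀ p hr V ((Finset.le_sup hpm).trans hV)
      have h8 : ‖E p‖ ≤ ε' * V := by
        rw [hE]
        simp only [norm_mul, norm_e, one_mul]
        exact h7
      have h9 := (abs_le.1 ((Complex.abs_re_le_norm (E p)).trans h8)).1
      have h10 := W_nonneg ν p
      have h11 := W_le_one ν p
      have h12 : 0 ≤ ε' * V := by positivity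
      nlinarith
  have hsum : -(ε * V) ≤ ∑ p ∈ (idx ν).erase ν, W ν p * (E p).re := by
    calc -(ε * V) = ((idx ν).card + 1) * (-(ε' * V)) := by rw [hε']; field_simp
      _ ≤ ((idx ν).erase ν).card * (-(ε' * V)) := by
          have := Finset.card_le_card (Finset.erase_subset ν (idx ν))
          have h8 : (((idx ν).erase ν).card : ℝ) ≤ (idx ν).card := by exact_mod_cast this
          have h9 : 0 ≤ ε' * V := by positivity
          nlinarith
      _ = ∑ _p ∈ (idx ν).erase ν, -(ε' * V) := by rw [sum_const, nsmul_eq_mul]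
      _ ≤ _ := Finset.sum_le_sum hlow
  linarith

end Pool.Agent.K6.H90.CN
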