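import Pool.Agent.K6.H90.CN.Weyl

/-!
# Spectral recurrence along polynomial values of squarefree congruent numbers
-/

set_option autoImplicit false

namespace Pool.Agent.K6.H90.CN

open MeasureTheory Finset Filter Topology Polynomial
open Pool.Agent.H332R2.Lit (e e_add norm_e)

/-- congruent numbers -/
def Cong (a : ℕ) : Prop :=
  ∃ x y z t : ℕ, 0 < x ∧ 0 < y ∧ 0 < z ∧ 0 < t ∧ x ^ 2 + a * y ^ 2 = z ^ 2 ∧ t ^ 2 + a * y ^ 2 = x ^ 2

/-- squarefree and `5`, `6` or `7` modulo `8` -/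
def Target (n : ℕ) : Prop := Squarefree n ∧ (n % 8 = 5 ∨ n % 8 = 6 ∨ n % 8 = 7)

/-- the family modulo `8 q` -/
theorem fam_mod {q r : ℕ} {h : ℤ} (D : Data q r h) (v : ℕ) :
    ((8 * q : ℕ) : ℤ) ∣ (fam q (r + 64 * q ^ 2 * v) : ℤ) - h := by
  rw [fam_cast D.hq (by have := D.hr; omega)]
  obtain ⟨c, hc⟩ := D.hrh
  refine ⟨2 * (q : ℤ) ^ 3 * ((r + 64 * q ^ 2 * v : ℕ) : ℤ) ^ 3 - 8 * q * (c + v), ?_⟩
  have hh : h = ((64 * q ^ 2 : ℕ) : ℤ) * c - r := by linarith
  rw [hh]
  push_cast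
  ring

/-- the data for a natural number `h` -/
theorem exists_data {q n₀ : ℕ} (hq : 1 ≤ q) (hn : Squarefree n₀) (hn1 : 1 ≤ n₀) (B : ℕ) :
    ∃ r : ℕ, B ≤ r ∧ Data q r (n₀ : ℤ) := by
  have hq2 : 1 ≤ q ^ 2 := Nat.one_le_pow _ _ hq
  have h1 : B + 1 ≤ 64 * q ^ 2 * (B + 1) := Nat.le_mul_of_pos_left _ (by positivity)
  have h2 : 64 * q ^ 2 * (B + 1) ≤ 64 * q ^ 2 * (B + 1) * n₀ := Nat.le_mul_of_pos_right _ (by omega)
  have h3 : (64 * q ^ 2 * (B + 1) - 1) * n₀ = 64 * q ^ 2 * (B + 1) * n₀ - n₀ := by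
    rw [Nat.sub_mul, one_mul]
  have h4 : 64 * (B + 1) ≤ 64 * q ^ 2 * (B + 1) := by nlinarith
  have h5 : B + 1 ≤ 64 * q ^ 2 * (B + 1) - 1 := by omega
  have h6 : B + 1 ≤ (64 * q ^ 2 * (B + 1) - 1) * n₀ := h5.trans (Nat.le_mul_of_pos_right _ (by omega))
  refine ⟨(64 * q ^ 2 * (B + 1) - 1) * n₀, by omega, hq, by omega, Int.squarefree_natCast.2 hn, ?_⟩
  refine ⟨((B + 1) * n₀ : ℕ), ?_⟩
  have h7 : n₀ ≤ 64 * q ^ 2 * (B + 1) * n₀ := Nat.le_mul_of_pos_left _ (by positivity)
  rw [h3, Nat.cast_sub h7]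
  push_cast
  ring

theorem le_fam {q u : ℕ} (hq : 1 ≤ q) (hu : 1 ≤ u) : u ≤ fam q u := by
  have h := one_le_four hq hu
  unfold fam
  refine Nat.le_mul_of_pos_right _ (Nat.mul_pos (by omega) (by omega))

theorem target_fam {q r : ℕ} {h : ℤ} (D : Data q r h) (h8 : h % 8 = 5 ∨ h % 8 = 6 ∨ h % 8 = 7) {v : ℕ}
    (hv : Good q r v) : Target (fam q (r + 64 * q ^ 2 * v)) ∧ Cong (fam q (r + 64 * q ^ 2 * v)) := by
  have hu : 1 ≤ r + 64 * q ^ 2 * v := by have := D.hr; omega
  refine ⟨⟨squarefree_fam D.hq hu hv, ?_⟩, congruent_fam D.hq hu⟩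
  have h1 := fam_mod D v
  have h2 : (8 : ℤ) ∣ (fam q (r + 64 * q ^ 2 * v) : ℤ) - h := by
    refine Dvd.dvd.trans ⟨(q : ℤ), ?_⟩ h1
    push_cast
    ring
  omega

theorem exists_root_bound (p : ℤ[X]) (hp : p ≠ 0) : ∃ B : ℕ, ∀ n : ℕ, B ≤ n → p.eval (n : ℤ) ≠ 0 := by
  refine ⟨p.roots.toFinset.sup Int.natAbs + 1, fun n hn h0 => ?_⟩
  have h1 : (n : ℤ) ∈ p.roots.toFinset := by
    rw [Multiset.mem_toFinset, mem_roots hp]
    exact h0
  have h2 := Finset.le_sup (f := Int.natAbs) h1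
  rw [Int.natAbs_natCast] at h2
  omega

theorem int_fourier (c : ℤ) (σ : Measure UnitAddCircle) [IsFiniteMeasure σ] :
    Integrable (fun t : UnitAddCircle => (fourier c t : ℂ)) σ := by
  refine Integrable.mono' (g := fun _ => (1:ℝ)) (integrable_const _)
    (fourier c).continuous.aestronglyMeasurable (Filter.Eventually.of_forall fun t => ?_)
  rw [fourier_apply, Circle.norm_coe]

theorem norm_fourier (c : ℤ) (t : UnitAddCircle) : ‖(fourier c t : ℂ)‖ = 1 := by
  rw [fourier_apply, Circle.norm_coe]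

/-- a point which is not a torsion point is the class of an irrational number -/
theorem irr_of_nontorsion {x : ℝ} (hx : ∀ k : ℕ, 1 ≤ k → k • (x : UnitAddCircle) ≠ 0) : Irrational x := by
  intro hmem
  obtain ⟨a, ha⟩ := hmem
  refine hx a.den (Nat.one_le_iff_ne_zero.2 a.den_ne_zero) ?_
  have h1 : (a.den : ℕ) • (x : UnitAddCircle) = (((a.num : ℤ) : ℝ) : UnitAddCircle) := by
    rw [← AddCircle.coe_nsmul, nsmul_eq_mul, ← ha]
    congr 1
    have := Rat.mul_den_eq_num a
    rw [mul_comm]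
    exact_mod_cast congrArg (fun x : ℚ => (x : ℝ)) this
  rw [h1, AddCircle.coe_eq_zero_iff]
  exact ⟨a.num, by simp⟩

/-- **Spectral recurrence** of the values `p(n)`, `n` squarefree and congruent, `n ≡ a (mod m)`. -/
theorem spectral (p : ℤ[X]) (hp : 1 ≤ p.natDegree) (m a : ℕ) (hm : 1 ≤ m)
    (hloc : ∀ k : ℕ, 1 ≤ k → ∃ n : ℕ, Target n ∧ n ≡ a [MOD m] ∧ (k : ℤ) ∣ p.eval (n : ℤ))
    (B₀ : ℕ) (σ : Measure UnitAddCircle) [IsFiniteMeasure σ] (ε : ℝ) (hε : 0 < ε) :
    ∃ n : ℕ, B₀ ≤ n ∧ Target n ∧ n ≡ a [MOD m] ∧ Cong n ∧ p.eval (n : ℤ) ≠ 0 ∧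
      (σ {0}).toReal - ε < ∫ t : UnitAddCircle, (fourier (p.eval (n : ℤ)) t : ℂ).re ∂σ := by
  classical
  have hp0 : p ≠ 0 := by
    rintro rfl
    simp at hp
  -- torsion points
  set S : ℕ → Set UnitAddCircle := fun K => {t | K.factorial • t = 0} with hS
  have hSmeas : ∀ K, MeasurableSet (S K) := fun K =>
    (isClosed_eq (continuous_nsmul _) continuous_const).measurableSet
  have hSmono : Monotone S := by
    intro K L hKL t ht
    obtain ⟨c, hc⟩ := Nat.factorial_dvd_factorial hKL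
    have ht' : K.factorial • t = 0 := ht
    show L.factorial • t = 0
    rw [hc, mul_comm, mul_smul, ht', smul_zero]
  set T : Set UnitAddCircle := ⋃ K, S K with hT
  have hTmeas : MeasurableSet T := MeasurableSet.iUnion hSmeas
  have hlim := tendsto_measure_iUnion_atTop (μ := σ) hSmono
  have hlim2 : Tendsto (fun K => (σ (S K)).toReal) atTop (𝓝 (σ T).toReal) :=
    (ENNReal.tendsto_toReal (measure_ne_top σ T)).comp hlim
  obtain ⟨K, hK, hKm⟩ := ((hlim2.eventually (lt_mem_nhds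
    (show (σ T).toReal - ε / 4 < (σ T).toReal by linarith))).and (eventually_ge_atTop m)).exists
  have hST : S K ⊆ T := Set.subset_iUnion S K
  have h0S : ({0} : Set UnitAddCircle) ⊆ S K := by
    intro t ht
    rw [Set.mem_singleton_iff] at ht
    show K.factorial • t = 0
    rw [ht, smul_zero]
  have h0le : (σ {0}).toReal ≤ (σ (S K)).toReal :=
    ENNReal.toReal_mono (measure_ne_top _ _) (measure_mono h0S)
  -- the data
  set q := K.factorial with hq
  have hq1 : 1 ≤ q := Nat.factorial_pos K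
  obtain ⟨n₀, ⟨hn₀s, hn₀8⟩, hn₀m, hn₀d⟩ := hloc q hq1
  obtain ⟨B, hB⟩ := exists_root_bound p hp0
  obtain ⟨r, hrB, D⟩ := exists_data hq1 hn₀s (by omega) (max B B₀)
  set N : ℕ → ℕ := fun v => fam q (r + 64 * q ^ 2 * v) with hN
  have hNB0 : ∀ v, max B B₀ ≤ N v := by
    intro v
    have := le_fam hq1 (show 1 ≤ r + 64 * q ^ 2 * v by have := D.hr; omega)
    show max B B₀ ≤ fam q (r + 64 * q ^ 2 * v)
    omega
  have hNB : ∀ v, B ≤ N v := fun v => (le_max_left _ _).trans (hNB0 v)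
  set c : ℕ → ℤ := fun v => p.eval (N v : ℤ) with hc
  have hNq : ∀ v, (q : ℤ) ∣ (N v : ℤ) - n₀ := by
    intro v
    refine Dvd.dvd.trans ⟨8, ?_⟩ (fam_mod D v)
    push_cast
    ring
  have hNm : ∀ v, N v ≡ a [MOD m] := by
    intro v
    have h1 : (m : ℤ) ∣ (N v : ℤ) - n₀ := by
      have h2 : (m : ℤ) ∣ (q : ℤ) := by exact_mod_cast Nat.dvd_factorial hm hKm
      exact h2.trans (hNq v)
    refine Nat.ModEq.trans ?_ hn₀m
    exact ((Nat.modEq_iff_dvd).2 h1).symm
  have hcq : ∀ v, (q : ℤ) ∣ c v := by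
    intro v
    have h1 := sub_dvd_eval_sub (N v : ℤ) (n₀ : ℤ) p
    have h2 := hNq v
    have h3 := dvd_add (h2.trans h1) hn₀d
    rwa [sub_add_cancel] at h3
  by_contra hcon
  push Not at hcon
  have hbad : ∀ v, Good q r v → ∫ t : UnitAddCircle, (fourier (c v) t : ℂ).re ∂σ ≤ (σ {0}).toReal - ε := by
    intro v hv
    obtain ⟨h1, h2⟩ := target_fam D (by omega) hv
    exact hcon (N v) ((le_max_right _ _).trans (hNB0 v)) h1 (hNm v) h2 (hB _ (hNB v))
  -- the means
  set G : ℕ → Finset ℕ := fun V => (range V).filter fun v => Good q r v with hG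
  have hGcard : ∀ V, (G V).card ≤ V := fun V => (card_filter_le _ _).trans (by rw [card_range])
  set g : ℕ → UnitAddCircle → ℂ := fun V t => (∑ v ∈ G V, (fourier (c v) t : ℂ)) / (V : ℂ) with hg
  have hgint : ∀ V, Integrable (g V) σ := fun V =>
    (integrable_finsetSum _ fun v _ => int_fourier (c v) σ).div_const _
  have hgnorm : ∀ V t, ‖g V t‖ ≤ 1 := by
    intro V t
    rcases Nat.eq_zero_or_pos V with h0 | h0
    · subst h0
      simp [hg]
    have hV0 : (0 : ℝ) < V := by exact_mod_cast h0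
    rw [hg, norm_div, Complex.norm_natCast, div_le_one hV0]
    calc ‖∑ v ∈ G V, (fourier (c v) t : ℂ)‖ ≤ ∑ v ∈ G V, ‖(fourier (c v) t : ℂ)‖ := norm_sum_le _ _
      _ = (G V).card := by simp only [norm_fourier]; simp
      _ ≤ V := by exact_mod_cast hGcard V
  -- the irrational points
  have hirr : Tendsto (fun V => ∫ t in Tᶜ, g V t ∂σ) atTop (𝓝 (∫ t in Tᶜ, (0 : ℂ) ∂σ)) := by
    refine tendsto_integral_of_dominated_convergence (fun _ => (1 : ℝ))
      (fun V => (hgint V).aestronglyMeasurable.restrict) (integrable_const _)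
      (fun V => Filter.Eventually.of_forall fun t => hgnorm V t) ?_
    refine (ae_restrict_iff' hTmeas.compl).2 (Filter.Eventually.of_forall fun t ht => ?_)
    obtain ⟨x, rfl⟩ := QuotientAddGroup.mk_surjective t
    have hx : Irrational x := by
      refine irr_of_nontorsion fun k hk h0 => ht ?_
      rw [hT, Set.mem_iUnion]
      refine ⟨k, ?_⟩
      obtain ⟨d, hd⟩ := Nat.dvd_factorial hk le_rfl
      show k.factorial • (QuotientAddGroup.mk x : UnitAddCircle) = 0
      rw [hd, mul_comm, mul_smul]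
      have h0' : k • (QuotientAddGroup.mk x : UnitAddCircle) = 0 := h0
      rw [h0', smul_zero]
    have hF : ∃ j, 1 ≤ j ∧ Irrational ((C x * p.map (Int.castRingHom ℝ)).coeff j) := by
      refine ⟨p.natDegree, hp, ?_⟩
      rw [coeff_C_mul, coeff_map]
      exact hx.mul_intCast (by rw [coeff_natDegree]; exact leadingCoeff_ne_zero.2 hp0)
    have h1 := mean_phase D (C x * p.map (Int.castRingHom ℝ)) hF
    have h2 : ∀ v, (fourier (c v) (QuotientAddGroup.mk x : UnitAddCircle) : ℂ) =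
        e ((C x * p.map (Int.castRingHom ℝ)).eval (fam q (r + 64 * q ^ 2 * v) : ℝ)) := by
      intro v
      have h3 : ((QuotientAddGroup.mk x : UnitAddCircle)) = (x : UnitAddCircle) := rfl
      rw [h3, fourier_coe_apply]
      unfold e
      congr 1
      have h4 : (p.map (Int.castRingHom ℝ)).eval ((fam q (r + 64 * q ^ 2 * v) : ℕ) : ℝ) = ((c v : ℤ) : ℝ) := by
        have h5 : ((fam q (r + 64 * q ^ 2 * v) : ℕ) : ℝ) = (Int.castRingHom ℝ) ((fam q (r + 64 * q ^ 2 * v) : ℕ) : ℤ) := by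
          simp
        rw [h5, eval_map_apply]
        rfl
      rw [eval_mul, eval_C, h4]
      push_cast
      ring
    show Tendsto (fun V => g V (QuotientAddGroup.mk x : UnitAddCircle)) atTop (𝓝 0)
    simp only [hg, h2]
    exact h1
  rw [integral_zero] at hirr
  have hirr2 := (Metric.tendsto_atTop.1 hirr) (ε / 20) (by positivity)
  obtain ⟨V₁, hV₁⟩ := hirr2
  obtain ⟨V₂, hV₂⟩ := eventually_atTop.1 (card_good D)
  set V := max (max V₁ V₂) 1 with hV
  have hVa : V₁ ≤ V := (le_max_left _ _).trans (le_max_left _ _)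
  have hVb : V₂ ≤ V := (le_max_right _ _).trans (le_max_left _ _)
  have hV1 : 1 ≤ V := le_max_right _ _
  have hV0 : (0 : ℝ) < V := by exact_mod_cast hV1
  have k1 := hV₁ V hVa
  rw [dist_zero_right] at k1
  have k2 := hV₂ V hVb
  -- upper bound for the integral
  have hre : ∀ V t, (g V t).re = (∑ v ∈ G V, (fourier (c v) t : ℂ).re) / V := by
    intro V t
    rw [hg]
    show ((∑ v ∈ G V, (fourier (c v) t : ℂ)) / (V : ℂ)).re = _
    rw [show ((V : ℕ) : ℂ) = ((V : ℝ) : ℂ) by simp, Complex.div_ofReal_re, Complex.re_sum]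
  have hreint : ∀ c : ℤ, Integrable (fun t : UnitAddCircle => (fourier c t : ℂ).re) σ := fun c =>
    (int_fourier c σ).re
  have hgre : Integrable (fun t => (g V t).re) σ := (hgint V).re
  have hup : ∫ t, (g V t).re ∂σ ≤ (G V).card / V * ((σ {0}).toReal - ε) := by
    simp only [hre]
    rw [integral_div, integral_finsetSum _ fun v _ => hreint (c v)]
    rw [div_mul_eq_mul_div, div_le_div_iff_of_pos_right hV0]
    calc ∑ v ∈ G V, ∫ t : UnitAddCircle, (fourier (c v) t : ℂ).re ∂σ ≤ ∑ _v ∈ G V, ((σ {0}).toReal - ε) :=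
          Finset.sum_le_sum fun v hv => hbad v (mem_filter.1 hv).2
      _ = _ := by rw [sum_const, nsmul_eq_mul]
  -- lower bound on `T`
  have hlow : ∫ t in T, (g V t).re ∂σ ≥ (G V).card / V * (2 * (σ (S K)).toReal - (σ T).toReal) := by
    have hpt : ∀ t ∈ T, (G V).card / V * (2 * (S K).indicator (fun _ => (1 : ℝ)) t - 1) ≤ (g V t).re := by
      intro t _
      rw [hre, div_mul_eq_mul_div, div_le_div_iff_of_pos_right hV0]
      have : ∀ v ∈ G V, (2 * (S K).indicator (fun _ => (1 : ℝ)) t - 1) ≤ (fourier (c v) t : ℂ).re := by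
        intro v _
        by_cases ht : t ∈ S K
        · rw [Set.indicator_of_mem ht]
          obtain ⟨d, hd⟩ := hcq v
          have h1 : (fourier (c v) t : ℂ) = 1 := by
            rw [fourier_apply, hd, mul_comm, mul_smul]
            have : (q : ℤ) • t = 0 := by
              have h2 : q • t = 0 := ht
              rw [← h2]
              exact natCast_zsmul t q
            rw [this, smul_zero, AddCircle.toCircle_zero]
            simp
          rw [h1]
          norm_num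
        · rw [Set.indicator_of_notMem ht]
          have h1 := Complex.abs_re_le_norm (fourier (c v) t : ℂ)
          rw [norm_fourier] at h1
          have h2 := (abs_le.1 h1).1
          linarith
      calc (G V).card * (2 * (S K).indicator (fun _ => (1 : ℝ)) t - 1) =
            ∑ _v ∈ G V, (2 * (S K).indicator (fun _ => (1 : ℝ)) t - 1) := by rw [sum_const, nsmul_eq_mul]
        _ ≤ _ := Finset.sum_le_sum this
    have hint1 : Integrable (fun t => (S K).indicator (fun _ => (1 : ℝ)) t) (σ.restrict T) :=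
      ((integrable_const (1 : ℝ)).indicator (hSmeas K))
    have h2 : ∫ t in T, ((G V).card / V * (2 * (S K).indicator (fun _ => (1 : ℝ)) t - 1)) ∂σ =
        (G V).card / V * (2 * (σ (S K)).toReal - (σ T).toReal) := by
      rw [integral_const_mul, integral_sub (hint1.const_mul 2) (integrable_const _), integral_const_mul,
        integral_indicator (hSmeas K), Measure.restrict_restrict (hSmeas K), Set.inter_eq_left.2 hST]
      simp [measureReal_def]
    rw [ge_iff_le, ← h2]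
    refine setIntegral_mono_on ?_ hgre.integrableOn hTmeas hpt
    exact ((hint1.const_mul 2).sub (integrable_const _)).const_mul _
  have hsplit := integral_add_compl hTmeas hgre
  have hcompl : |∫ t in Tᶜ, (g V t).re ∂σ| < ε / 20 := by
    have h1 : ∫ t in Tᶜ, (g V t).re ∂σ = (∫ t in Tᶜ, g V t ∂σ).re := by
      have := integral_re (hgint V).integrableOn (μ := σ.restrict Tᶜ)
      exact this
    rw [h1]
    exact (Complex.abs_re_le_norm _).trans_lt k1
  have hcompl2 := (abs_lt.1 hcompl).1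
  set γ : ℝ := (G V).card / V with hγ
  have hγ1 : 1 / 5 ≤ γ := by
    rw [hγ, le_div_iff₀ hV0]
    have : ((G V).card : ℝ) = (((range V).filter fun v => Good q r v).card : ℝ) := rfl
    linarith
  have m1 : γ * (2 * (σ (S K)).toReal - (σ T).toReal) ≥ γ * ((σ {0}).toReal - ε / 4) :=
    mul_le_mul_of_nonneg_left (by linarith) (by linarith)
  have m2 : γ * ((σ {0}).toReal - ε / 4) - γ * ((σ {0}).toReal - ε) = γ * (3 * ε / 4) := by ring
  have m3 : 1 / 5 * (3 * ε / 4) ≤ γ * (3 * ε / 4) := mul_le_mul_of_nonneg_right hγ1 (by positivity)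
  linarith

end Pool.Agent.K6.H90.CN
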