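import Pool.Agent.K6.H90.CN.Fam

/-!
# Counting the good members of the family, and means over the good members
-/

set_option autoImplicit false

namespace Pool.Agent.K6.H90.CN

open Finset Filter Topology

/-- the data: a modulus `q ≥ 1`, a squarefree integer `h` and `r ≥ 1` with `64 q² ∣ r + h` -/
structure Data (q r : ℕ) (h : ℤ) : Prop where
  hq : 1 ≤ q
  hr : 1 ≤ r
  hh : Squarefree h
  hrh : ((64 * q ^ 2 : ℕ) : ℤ) ∣ (r : ℤ) + h

/-- a bound for the coefficients of the forms -/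
def CC (q r : ℕ) : ℕ := 4 * q ^ 2 * (r + 64 * q ^ 2) + 1

theorem exists_bad {q r : ℕ} {h : ℤ} (D : Data q r h) {v : ℕ} (hv : ¬ Good q r v) :
    ∃ (i : Fin 3) (p : ℕ), p.Prime ∧ ¬ p ∣ 2 * q ∧ p ^ 2 ∣ form q (r + 64 * q ^ 2 * v) i := by
  unfold Good at hv
  push Not at hv
  obtain ⟨i, hi⟩ := hv
  rw [Nat.squarefree_iff_prime_squarefree] at hi
  push Not at hi
  obtain ⟨p, hp, hd⟩ := hi
  rw [← sq] at hd
  exact ⟨i, p, hp, fun hpq => no_small D.hq D.hr D.hh D.hrh hp hpq v i hd, hd⟩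

/-- the size of a prime whose square divides a form -/
theorem bad_le {q r : ℕ} {h : ℤ} (D : Data q r h) {v V p : ℕ} (hv : v < V) {i : Fin 3}
    (hd : p ^ 2 ∣ form q (r + 64 * q ^ 2 * v) i) : p ≤ Nat.sqrt (CC q r * V) := by
  obtain ⟨c, d, hcd, -, hle⟩ := form_lin D.hq D.hr i
  rw [hcd v] at hd
  have h4 := one_le_four D.hq (show 1 ≤ r + 64 * q ^ 2 * v by have := D.hr; omega)
  have hpos : 0 < c * v + d := by
    rw [← hcd v]
    unfold form
    have := D.hr
    split_ifs <;> omega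
  have h1 := Nat.le_of_dvd hpos hd
  rw [Nat.le_sqrt']
  have hV : 1 ≤ V := by omega
  calc p ^ 2 ≤ c * v + d := h1
    _ ≤ c * V + d * V := by
        have : c * v ≤ c * V := Nat.mul_le_mul_left _ hv.le
        have : d ≤ d * V := Nat.le_mul_of_pos_right _ hV
        omega
    _ = (c + d) * V := by ring
    _ ≤ CC q r * V := Nat.mul_le_mul_right _ hle

/-- the `v < V` with `m² ∣ form i` -/
noncomputable def bset (q r V : ℕ) (i : Fin 3) (m : ℕ) : Finset ℕ := by
  classical
  exact (range V).filter fun v => Nat.Coprime m (2 * q) ∧ m ^ 2 ∣ form q (r + 64 * q ^ 2 * v) i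

theorem card_bset {q r : ℕ} {h : ℤ} (D : Data q r h) (V : ℕ) (i : Fin 3) (m : ℕ) :
    ((bset q r V i m).card : ℝ) ≤ V * (1 / m ^ 2) + 1 := by
  classical
  by_cases hm : Nat.Coprime m (2 * q)
  · obtain ⟨c, d, hcd, hcop, -⟩ := form_lin D.hq D.hr i
    have e : bset q r V i m = (range V).filter fun v => m ^ 2 ∣ c * v + d := by
      unfold bset
      ext v
      rw [mem_filter, mem_filter, hcd v]
      exact ⟨fun h => ⟨h.1, h.2.2⟩, fun h => ⟨h.1, hm, h.2⟩⟩
    rw [e]
    have := card_dvd (c := c) (d := d) (M := m ^ 2) (V := V) ((hcop m hm).pow_right 2)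
    rw [mul_one_div]
    push_cast at this
    exact this
  · have e : bset q r V i m = ∅ := by
      unfold bset
      rw [Finset.filter_eq_empty_iff]
      intro v _ hv
      exact hm hv.1
    rw [e, card_empty]
    push_cast
    positivity

/-- the number of the `v < V` which are not good -/
theorem card_bad {q r : ℕ} {h : ℤ} (D : Data q r h) (V : ℕ) [DecidablePred (Good q r)] :
    (((range V).filter fun v => ¬ Good q r v).card : ℝ) ≤ 3 * (V / 4 + Nat.sqrt (CC q r * V)) := by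
  classical
  set K := Nat.sqrt (CC q r * V) with hK
  have hsub : ((range V).filter fun v => ¬ Good q r v) ⊆
      (Finset.univ : Finset (Fin 3)).biUnion fun i => (Icc 1 K).biUnion fun k => bset q r V i (2 * k + 1) := by
    intro v hv
    rw [mem_filter, mem_range] at hv
    obtain ⟨i, p, hp, hpq, hd⟩ := exists_bad D hv.2
    have hle := bad_le D hv.1 hd
    have hp2 : p ≠ 2 := fun h2 => hpq (by rw [h2]; exact Dvd.intro _ rfl)
    obtain ⟨k, hk⟩ := hp.odd_of_ne_two hp2
    have hp1 := hp.two_le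
    rw [mem_biUnion]
    refine ⟨i, mem_univ _, ?_⟩
    rw [mem_biUnion]
    refine ⟨k, ?_, ?_⟩
    · rw [mem_Icc]; omega
    · unfold bset
      rw [mem_filter, mem_range]
      refine ⟨hv.1, ?_, ?_⟩
      · rw [← hk]
        exact (Nat.Prime.coprime_iff_not_dvd hp).2 hpq
      · rw [← hk]; exact hd
  have h1 : (((range V).filter fun v => ¬ Good q r v).card : ℝ) ≤
      ∑ i : Fin 3, ∑ k ∈ Icc 1 K, ((bset q r V i (2 * k + 1)).card : ℝ) := by
    have h2 := (card_le_card hsub).trans card_biUnion_le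
    have h3 : ∑ i : Fin 3, ((Icc 1 K).biUnion fun k => bset q r V i (2 * k + 1)).card ≤
        ∑ i : Fin 3, ∑ k ∈ Icc 1 K, (bset q r V i (2 * k + 1)).card :=
      Finset.sum_le_sum fun i _ => card_biUnion_le
    exact_mod_cast h2.trans h3
  refine h1.trans ?_
  have h4 : ∀ i : Fin 3, ∑ k ∈ Icc 1 K, ((bset q r V i (2 * k + 1)).card : ℝ) ≤ V / 4 + K := by
    intro i
    calc ∑ k ∈ Icc 1 K, ((bset q r V i (2 * k + 1)).card : ℝ)
        ≤ ∑ k ∈ Icc 1 K, ((V : ℝ) * (1 / (2 * k + 1) ^ 2) + 1) := by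
          refine Finset.sum_le_sum fun k _ => ?_
          have := card_bset D V i (2 * k + 1)
          push_cast at this
          exact this
      _ = V * ∑ k ∈ Icc 1 K, (1 : ℝ) / (2 * k + 1) ^ 2 + K := by
          rw [sum_add_distrib, ← mul_sum]
          simp
      _ ≤ V * (1 / 4) + K := by
          have := mul_le_mul_of_nonneg_left (sum_odd K) (Nat.cast_nonneg (α := ℝ) V)
          linarith
      _ = V / 4 + K := by ring
  calc ∑ i : Fin 3, ∑ k ∈ Icc 1 K, ((bset q r V i (2 * k + 1)).card : ℝ)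
      ≤ ∑ _i : Fin 3, ((V : ℝ) / 4 + K) := Finset.sum_le_sum fun i _ => h4 i
    _ = 3 * (V / 4 + K) := by simp; ring

/-- the number of the `v < V` which are not good because of the squares of large primes -/
theorem card_tail {q r : ℕ} {h : ℤ} (D : Data q r h) (V : ℕ) {z : ℕ} (hz : 1 ≤ z) [DecidablePred (Good q r)]
    [DecidablePred (GoodZ q r z)] :
    (((range V).filter fun v => GoodZ q r z v ∧ ¬ Good q r v).card : ℝ) ≤
      3 * (V / z + Nat.sqrt (CC q r * V)) := by
  classical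
  set K := Nat.sqrt (CC q r * V) with hK
  have hsub : ((range V).filter fun v => GoodZ q r z v ∧ ¬ Good q r v) ⊆
      (Finset.univ : Finset (Fin 3)).biUnion fun i => (Ioc z K).biUnion fun k => bset q r V i k := by
    intro v hv
    rw [mem_filter, mem_range] at hv
    obtain ⟨hv1, hv2, hv3⟩ := hv
    obtain ⟨i, p, hp, hpq, hd⟩ := exists_bad D hv3
    have hle := bad_le D hv1 hd
    rw [mem_biUnion]
    refine ⟨i, mem_univ _, ?_⟩
    rw [mem_biUnion]
    refine ⟨p, ?_, ?_⟩
    · rw [mem_Ioc]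
      refine ⟨?_, hle⟩
      by_contra hcon
      exact hv2 p hp (by omega) hpq i hd
    · unfold bset
      rw [mem_filter, mem_range]
      exact ⟨hv1, (Nat.Prime.coprime_iff_not_dvd hp).2 hpq, hd⟩
  have h1 : (((range V).filter fun v => GoodZ q r z v ∧ ¬ Good q r v).card : ℝ) ≤
      ∑ i : Fin 3, ∑ k ∈ Ioc z K, ((bset q r V i k).card : ℝ) := by
    have h2 := (card_le_card hsub).trans card_biUnion_le
    have h3 : ∑ i : Fin 3, ((Ioc z K).biUnion fun k => bset q r V i k).card ≤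
        ∑ i : Fin 3, ∑ k ∈ Ioc z K, (bset q r V i k).card :=
      Finset.sum_le_sum fun i _ => card_biUnion_le
    exact_mod_cast h2.trans h3
  refine h1.trans ?_
  have h4 : ∀ i : Fin 3, ∑ k ∈ Ioc z K, ((bset q r V i k).card : ℝ) ≤ V / z + K := by
    intro i
    calc ∑ k ∈ Ioc z K, ((bset q r V i k).card : ℝ)
        ≤ ∑ k ∈ Ioc z K, ((V : ℝ) * (1 / k ^ 2) + 1) :=
          Finset.sum_le_sum fun k _ => card_bset D V i k
      _ = V * ∑ k ∈ Ioc z K, (1 : ℝ) / k ^ 2 + ((Ioc z K).card : ℝ) := by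
          rw [sum_add_distrib, ← mul_sum]
          simp
      _ ≤ V * (1 / z) + K := by
          have := mul_le_mul_of_nonneg_left (sum_tail hz K) (Nat.cast_nonneg (α := ℝ) V)
          have h5 : ((Ioc z K).card : ℝ) ≤ K := by
            rw [Nat.card_Ioc]
            exact_mod_cast Nat.sub_le _ _
          linarith
      _ = V / z + K := by ring
  calc ∑ i : Fin 3, ∑ k ∈ Ioc z K, ((bset q r V i k).card : ℝ)
      ≤ ∑ _i : Fin 3, ((V : ℝ) / z + K) := Finset.sum_le_sum fun i _ => h4 i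
    _ = 3 * (V / z + K) := by simp; ring

theorem sqrt_little (C : ℕ) : Tendsto (fun V : ℕ => (Nat.sqrt (C * V) : ℝ) / V) atTop (𝓝 0) := by
  have h1 : ∀ᶠ V : ℕ in atTop, (Nat.sqrt (C * V) : ℝ) / V ≤ √C * (1 / √V) := by
    filter_upwards [eventually_ge_atTop 1] with V hV
    have hV0 : (0 : ℝ) < V := by exact_mod_cast hV
    have h2 : (Nat.sqrt (C * V) : ℝ) ≤ √((C * V : ℕ) : ℝ) := by
      apply Real.le_sqrt_of_sq_le
      exact_mod_cast Nat.sqrt_le' (C * V)
    rw [div_le_iff₀ hV0]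
    refine h2.trans (le_of_eq ?_)
    push_cast
    rw [Real.sqrt_mul (Nat.cast_nonneg C)]
    have h3 : √(V : ℝ) ≠ 0 := (Real.sqrt_pos.2 hV0).ne'
    have h4 : √(V : ℝ) * √V = V := Real.mul_self_sqrt hV0.le
    calc √(C : ℝ) * √V = √C * (1 / √V) * (√V * √V) := by field_simp
      _ = _ := by rw [h4]
  have h2 : Tendsto (fun V : ℕ => √C * (1 / √(V : ℝ))) atTop (𝓝 0) := by
    have h3 : Tendsto (fun V : ℕ => √(V : ℝ)) atTop atTop :=
      Real.tendsto_sqrt_atTop.comp tendsto_natCast_atTop_atTop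
    have h4 := (tendsto_const_nhds (x := (1 : ℝ))).div_atTop h3
    simpa using h4.const_mul (√(C : ℝ))
  refine squeeze_zero' (Eventually.of_forall fun V => by positivity) h1 h2

/-- at least a fifth of the `v < V` are good -/
theorem card_good {q r : ℕ} {h : ℤ} (D : Data q r h) [DecidablePred (Good q r)] :
    ∀ᶠ V : ℕ in atTop, (V : ℝ) / 5 ≤ (((range V).filter fun v => Good q r v).card : ℝ) := by
  have h1 := (sqrt_little (CC q r)).eventually (gt_mem_nhds (show (0 : ℝ) < 1 / 60 by norm_num))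
  filter_upwards [h1, eventually_ge_atTop 1] with V hV hV1
  have hV0 : (0 : ℝ) < V := by exact_mod_cast hV1
  rw [div_lt_iff₀ hV0] at hV
  have h2 := card_bad D V
  have h3 := Finset.card_filter_add_card_filter_not (s := range V) (p := fun v => Good q r v)
  rw [card_range] at h3
  have h4 : (((range V).filter fun v => Good q r v).card : ℝ) +
      (((range V).filter fun v => ¬ Good q r v).card : ℝ) = V := by exact_mod_cast h3
  linarith

theorem goodZ_periodic {q r z : ℕ} (P : ℕ) (hP : ∀ p : ℕ, p.Prime → p ≤ z → p ^ 2 ∣ P) (hq : 1 ≤ q) (hr : 1 ≤ r)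
    (s l : ℕ) : GoodZ q r z (s + P * l) ↔ GoodZ q r z s := by
  unfold GoodZ
  refine forall_congr' fun p => forall_congr' fun hp => forall_congr' fun hpz => forall_congr' fun hpq =>
    forall_congr' fun i => ?_
  obtain ⟨c, d, hcd, -, -⟩ := form_lin hq hr i
  rw [hcd, hcd, not_iff_not]
  have : c * (s + P * l) + d = c * s + d + P * (c * l) := by ring
  rw [this]
  exact (Nat.dvd_add_iff_left ((hP p hp hpz).mul_right _)).symm

theorem sum_blocks (f : ℕ → ℂ) (P M : ℕ) :
    ∑ v ∈ range (P * M), f v = ∑ s ∈ range P, ∑ l ∈ range M, f (s + P * l) := by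
  induction M with
  | zero => simp
  | succ M ih =>
    rw [Nat.mul_succ, Finset.sum_range_add, ih]
    simp only [Finset.sum_range_succ, Finset.sum_add_distrib]
    congr 1
    exact Finset.sum_congr rfl fun s _ => by rw [add_comm]

/-- **Means over the good members.** If the means of `a` over all arithmetic progressions are zero then so is
the mean over the good members. -/
theorem mean_good {q r : ℕ} {h : ℤ} (D : Data q r h) [DecidablePred (Good q r)] (a : ℕ → ℂ) (ha : ∀ v, ‖a v‖ ≤ 1)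
    (hmean : ∀ P : ℕ, 1 ≤ P → ∀ s : ℕ, Tendsto (fun V : ℕ => (∑ l ∈ range V, a (s + P * l)) / (V : ℂ)) atTop (𝓝 0)) :
    Tendsto (fun V : ℕ => (∑ v ∈ (range V).filter fun v => Good q r v, a v) / (V : ℂ)) atTop (𝓝 0) := by
  classical
  rw [Metric.tendsto_atTop]
  intro ε hε
  obtain ⟨z, hz⟩ := exists_nat_gt (12 / ε)
  have hz0 : (0 : ℝ) < z := lt_trans (by positivity) hz
  have hz1 : 1 ≤ z := by
    have : 0 < z := by exact_mod_cast hz0
    omega
  set P := (Nat.factorial z) ^ 2 with hP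
  have hP1 : 1 ≤ P := Nat.one_le_pow _ _ (Nat.factorial_pos z)
  have hPz : ∀ p : ℕ, p.Prime → p ≤ z → p ^ 2 ∣ P := fun p hp hpz =>
    pow_dvd_pow_of_dvd (Nat.dvd_factorial hp.pos hpz) 2
  -- the sum over the classes
  have hcls : ∀ s : ℕ, ∃ M₀ : ℕ, ∀ M : ℕ, M₀ ≤ M → ‖∑ l ∈ range M, a (s + P * l)‖ ≤ ε / 4 * M := by
    intro s
    obtain ⟨M₀, hM₀⟩ := (Metric.tendsto_atTop.1 (hmean P hP1 s)) (ε / 4) (by positivity)
    refine ⟨max M₀ 1, fun M hM => ?_⟩
    have h1 := hM₀ M ((le_max_left _ _).trans hM)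
    have hM1 : 1 ≤ M := (le_max_right _ _).trans hM
    have hM0 : (0 : ℝ) < M := by exact_mod_cast hM1
    rw [dist_zero_right, norm_div, Complex.norm_natCast, div_lt_iff₀ hM0] at h1
    exact h1.le
  choose M₀ hM₀ using hcls
  obtain ⟨M₁, hM₁⟩ : ∃ M₁ : ℕ, ∀ s ∈ range P, M₀ s ≤ M₁ :=
    ⟨(range P).sup M₀, fun s hs => Finset.le_sup hs⟩
  have hs := (sqrt_little (CC q r)).eventually (gt_mem_nhds (show (0 : ℝ) < ε / 12 by positivity))
  obtain ⟨V₁, hV₁⟩ := eventually_atTop.1 hs
  obtain ⟨V₂, hV₂⟩ := exists_nat_gt ((P : ℝ) / (ε / 4))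
  refine ⟨max (P * (M₁ + 1)) (max V₁ (V₂ + 1)), fun V hV => ?_⟩
  have hVa : P * (M₁ + 1) ≤ V := (le_max_left _ _).trans hV
  have hVb : V₁ ≤ V := (le_max_left _ _).trans ((le_max_right _ _).trans hV)
  have hVc : V₂ + 1 ≤ V := (le_max_right _ _).trans ((le_max_right _ _).trans hV)
  have hV0 : (0 : ℝ) < V := by
    have : 0 < V := by omega
    exact_mod_cast this
  set M := V / P with hM
  have hMV : P * M ≤ V := Nat.mul_div_le V P
  have hMV2 : V < P * M + P := by
    have := Nat.lt_mul_div_succ V (show 0 < P by omega)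
    rw [Nat.mul_add, Nat.mul_one] at this
    exact this
  have hM1 : M₁ ≤ M := by
    have : M₁ + 1 ≤ V / P := by
      rw [Nat.le_div_iff_mul_le (by omega)]
      rw [mul_comm]; exact hVa
    omega
  -- the periodic part
  set b : ℕ → ℂ := fun v => if GoodZ q r z v then a v else 0 with hb
  have hb1 : ∀ v, ‖b v‖ ≤ 1 := by
    intro v
    simp only [hb]
    split_ifs
    · exact ha v
    · simp
  have hB : ‖∑ v ∈ range (P * M), b v‖ ≤ ε / 4 * V := by
    rw [sum_blocks]
    have h1 : ∀ s ∈ range P, ‖∑ l ∈ range M, b (s + P * l)‖ ≤ ε / 4 * M := by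
      intro s hs
      have h2 : ∀ l, b (s + P * l) = (if GoodZ q r z s then (1 : ℂ) else 0) * a (s + P * l) := by
        intro l
        simp only [hb, goodZ_periodic P hPz D.hq D.hr s l]
        split_ifs <;> simp
      simp only [h2, ← Finset.mul_sum, norm_mul]
      have h3 : ‖(if GoodZ q r z s then (1 : ℂ) else 0)‖ ≤ 1 := by split_ifs <;> simp
      calc _ ≤ 1 * ‖∑ l ∈ range M, a (s + P * l)‖ := mul_le_mul_of_nonneg_right h3 (norm_nonneg _)
        _ = ‖∑ l ∈ range M, a (s + P * l)‖ := one_mul _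
        _ ≤ _ := hM₀ s M ((hM₁ s hs).trans hM1)
    calc ‖∑ s ∈ range P, ∑ l ∈ range M, b (s + P * l)‖ ≤ ∑ s ∈ range P, ‖∑ l ∈ range M, b (s + P * l)‖ :=
          norm_sum_le _ _
      _ ≤ ∑ _s ∈ range P, ε / 4 * M := Finset.sum_le_sum h1
      _ = ε / 4 * (P * M : ℕ) := by
          rw [sum_const, card_range, nsmul_eq_mul]
          push_cast
          ring
      _ ≤ ε / 4 * V := by
          refine mul_le_mul_of_nonneg_left ?_ (by positivity)
          exact_mod_cast hMV
  have hB2 : ‖∑ v ∈ range V, b v - ∑ v ∈ range (P * M), b v‖ ≤ P := by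
    obtain ⟨t, ht⟩ := Nat.exists_eq_add_of_le hMV
    have htP : t ≤ P := by omega
    rw [ht, Finset.sum_range_add, add_sub_cancel_left]
    calc ‖∑ x ∈ range t, b (P * M + x)‖ ≤ ∑ x ∈ range t, ‖b (P * M + x)‖ := norm_sum_le _ _
      _ ≤ ∑ _x ∈ range t, (1 : ℝ) := Finset.sum_le_sum fun x _ => hb1 _
      _ = t := by simp
      _ ≤ P := by exact_mod_cast htP
  -- the tail
  have hC : ‖∑ v ∈ (range V).filter (fun v => Good q r v), a v - ∑ v ∈ range V, b v‖ ≤
      3 * (V / z + Nat.sqrt (CC q r * V)) := by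
    have h1 : ∑ v ∈ (range V).filter (fun v => Good q r v), a v - ∑ v ∈ range V, b v =
        ∑ v ∈ (range V).filter (fun v => GoodZ q r z v ∧ ¬ Good q r v), (-a v) := by
      rw [Finset.sum_filter, Finset.sum_filter, ← Finset.sum_sub_distrib]
      refine Finset.sum_congr rfl fun v _ => ?_
      simp only [hb]
      by_cases hg : Good q r v
      · have := goodZ_of_good (z := z) hg
        simp [hg, this]
      · by_cases hgz : GoodZ q r z v <;> simp [hg, hgz]
    rw [h1]
    calc ‖∑ v ∈ (range V).filter (fun v => GoodZ q r z v ∧ ¬ Good q r v), (-a v)‖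
        ≤ ∑ v ∈ (range V).filter (fun v => GoodZ q r z v ∧ ¬ Good q r v), ‖-a v‖ := norm_sum_le _ _
      _ ≤ ∑ _v ∈ (range V).filter (fun v => GoodZ q r z v ∧ ¬ Good q r v), (1 : ℝ) :=
          Finset.sum_le_sum fun v _ => by rw [norm_neg]; exact ha v
      _ = (((range V).filter fun v => GoodZ q r z v ∧ ¬ Good q r v).card : ℝ) := by simp
      _ ≤ _ := card_tail D V hz1
  rw [dist_zero_right, norm_div, Complex.norm_natCast, div_lt_iff₀ hV0]
  have e1 : (P : ℝ) ≤ ε / 4 * V := by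
    rw [div_lt_iff₀ (by positivity)] at hV₂
    have : (V₂ : ℝ) ≤ V := by
      have : V₂ ≤ V := by omega
      exact_mod_cast this
    nlinarith
  have e2 : 3 * ((V : ℝ) / z) ≤ ε / 4 * V := by
    have h1 : (3 : ℝ) * (1 / z) ≤ ε / 4 := by
      rw [mul_one_div, div_le_iff₀ hz0]
      rw [div_lt_iff₀ hε] at hz
      linarith
    calc 3 * ((V : ℝ) / z) = 3 * (1 / z) * V := by ring
      _ ≤ _ := mul_le_mul_of_nonneg_right h1 hV0.le
  have e3 : 3 * (Nat.sqrt (CC q r * V) : ℝ) < ε / 4 * V := by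
    have h1 := hV₁ V hVb
    rw [div_lt_iff₀ hV0] at h1
    linarith
  have e4 : ‖∑ v ∈ (range V).filter (fun v => Good q r v), a v‖ ≤
      ‖∑ v ∈ (range V).filter (fun v => Good q r v), a v - ∑ v ∈ range V, b v‖ +
        ‖∑ v ∈ range V, b v - ∑ v ∈ range (P * M), b v‖ + ‖∑ v ∈ range (P * M), b v‖ := by
    have : ∑ v ∈ (range V).filter (fun v => Good q r v), a v =
        (∑ v ∈ (range V).filter (fun v => Good q r v), a v - ∑ v ∈ range V, b v) +
        (∑ v ∈ range V, b v - ∑ v ∈ range (P * M), b v) + ∑ v ∈ range (P * M), b v := by ring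
    calc _ = ‖_‖ := by rw [← this]
      _ ≤ _ := norm_add₃_le
  linarith

end Pool.Agent.K6.H90.CN
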