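import Pool.Agent.K6.H90.CN.Sieve
import Pool.Agent.H238R3.UL.Poly

/-!
# Means of polynomial phases along the family
-/

set_option autoImplicit false

namespace Pool.Agent.K6.H90.CN

open Finset Filter Topology Polynomial
open Pool.Agent.H332R2.Lit (e e_add norm_e)

/-- the means of `f` tend to zero -/
def MZ (f : ℕ → ℂ) : Prop := Tendsto (fun V : ℕ => (∑ l ∈ range V, f l) / (V : ℂ)) atTop (𝓝 0)

theorem e_int (n : ℤ) : e (n : ℝ) = 1 := by
  unfold e
  rw [show (2 * Real.pi * ((n : ℝ) : ℝ) * Complex.I : ℂ) = (n : ℂ) * (2 * Real.pi * Complex.I) by push_cast; ring]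
  exact Complex.exp_int_mul_two_pi_mul_I n

/-- Weyl: the phases of a real polynomial with an irrational leading coefficient have mean zero -/
theorem mz_poly (G : ℝ[X]) (d : ℕ) (hd : G.natDegree ≤ d + 1) (hirr : Irrational (G.coeff (d + 1))) :
    MZ fun l => e (G.eval (l : ℝ)) := by
  unfold MZ
  rw [Metric.tendsto_atTop]
  intro ε hε
  obtain ⟨M, hM, hW⟩ := Pool.Agent.H238R3.UL.weyl_unif d (ε / 2) (by positivity)
  set g : ℕ → ℝ := fun m => |(m : ℝ) * G.coeff (d + 1) - round ((m : ℝ) * G.coeff (d + 1))| with hg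
  have hne : (Icc 1 M).Nonempty := ⟨1, by simp [hM]⟩
  have hpos : ∀ m ∈ Icc 1 M, 0 < g m := by
    intro m hm
    rw [mem_Icc] at hm
    have h1 : Irrational ((m : ℝ) * G.coeff (d + 1)) := hirr.natCast_mul (by omega)
    rw [hg]
    exact abs_pos.2 (sub_ne_zero.2 (h1.ne_int _))
  obtain ⟨N₀, hN₀⟩ := hW ((Icc 1 M).inf' hne g) ((Finset.lt_inf'_iff hne).2 hpos)
  have h2 := hN₀ G hd (fun m hm => Finset.inf'_le g hm)
  refine ⟨max N₀ 1, fun N hN => ?_⟩
  have hN1 : 1 ≤ N := (le_max_right _ _).trans hN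
  have hN0 : (0 : ℝ) < N := by exact_mod_cast hN1
  have h3 := h2 N ((le_max_left _ _).trans hN)
  rw [dist_zero_right, norm_div, Complex.norm_natCast, div_lt_iff₀ hN0]
  nlinarith

/-- splitting into residue classes -/
theorem mz_split {f : ℕ → ℂ} (hf : ∀ l, ‖f l‖ ≤ 1) {Q : ℕ} (hQ : 1 ≤ Q) (h : ∀ t, MZ fun l => f (t + Q * l)) :
    MZ f := by
  unfold MZ
  rw [Metric.tendsto_atTop]
  intro ε hε
  have hcls : ∀ s : ℕ, ∃ M₀ : ℕ, ∀ M : ℕ, M₀ ≤ M → ‖∑ l ∈ range M, f (s + Q * l)‖ ≤ ε / 4 * M := by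
    intro s
    obtain ⟨M₀, hM₀⟩ := (Metric.tendsto_atTop.1 (h s)) (ε / 4) (by positivity)
    refine ⟨max M₀ 1, fun M hM => ?_⟩
    have h1 := hM₀ M ((le_max_left _ _).trans hM)
    have hM1 : 1 ≤ M := (le_max_right _ _).trans hM
    have hM0 : (0 : ℝ) < M := by exact_mod_cast hM1
    rw [dist_zero_right, norm_div, Complex.norm_natCast, div_lt_iff₀ hM0] at h1
    exact h1.le
  choose M₀ hM₀ using hcls
  obtain ⟨M₁, hM₁⟩ : ∃ M₁ : ℕ, ∀ s ∈ range Q, M₀ s ≤ M₁ :=
    ⟨(range Q).sup M₀, fun s hs => Finset.le_sup hs⟩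
  obtain ⟨V₂, hV₂⟩ := exists_nat_gt ((Q : ℝ) / (ε / 4))
  refine ⟨max (Q * (M₁ + 1)) (V₂ + 1), fun V hV => ?_⟩
  have hVa : Q * (M₁ + 1) ≤ V := (le_max_left _ _).trans hV
  have hVc : V₂ + 1 ≤ V := (le_max_right _ _).trans hV
  have hV0 : (0 : ℝ) < V := by
    have : 0 < V := by omega
    exact_mod_cast this
  set M := V / Q with hM
  have hMV : Q * M ≤ V := Nat.mul_div_le V Q
  have hMV2 : V < Q * M + Q := by
    have := Nat.lt_mul_div_succ V (show 0 < Q by omega)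
    rw [Nat.mul_add, Nat.mul_one] at this
    exact this
  have hM1 : M₁ ≤ M := by
    have : M₁ + 1 ≤ V / Q := by
      rw [Nat.le_div_iff_mul_le (by omega)]
      rw [mul_comm]; exact hVa
    omega
  have hB : ‖∑ v ∈ range (Q * M), f v‖ ≤ ε / 4 * V := by
    rw [sum_blocks]
    calc ‖∑ s ∈ range Q, ∑ l ∈ range M, f (s + Q * l)‖ ≤ ∑ s ∈ range Q, ‖∑ l ∈ range M, f (s + Q * l)‖ :=
          norm_sum_le _ _
      _ ≤ ∑ _s ∈ range Q, ε / 4 * M := Finset.sum_le_sum fun s hs => hM₀ s M ((hM₁ s hs).trans hM1)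
      _ = ε / 4 * (Q * M : ℕ) := by
          rw [sum_const, card_range, nsmul_eq_mul]
          push_cast
          ring
      _ ≤ ε / 4 * V := by
          refine mul_le_mul_of_nonneg_left ?_ (by positivity)
          exact_mod_cast hMV
  have hB2 : ‖∑ v ∈ range V, f v - ∑ v ∈ range (Q * M), f v‖ ≤ Q := by
    obtain ⟨t, ht⟩ := Nat.exists_eq_add_of_le hMV
    have htP : t ≤ Q := by omega
    rw [ht, Finset.sum_range_add, add_sub_cancel_left]
    calc ‖∑ x ∈ range t, f (Q * M + x)‖ ≤ ∑ x ∈ range t, ‖f (Q * M + x)‖ := norm_sum_le _ _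
      _ ≤ ∑ _x ∈ range t, (1 : ℝ) := Finset.sum_le_sum fun x _ => hf _
      _ = t := by simp
      _ ≤ Q := by exact_mod_cast htP
  rw [dist_zero_right, norm_div, Complex.norm_natCast, div_lt_iff₀ hV0]
  have e1 : (Q : ℝ) ≤ ε / 4 * V := by
    rw [div_lt_iff₀ (by positivity)] at hV₂
    have : (V₂ : ℝ) ≤ V := by
      have : V₂ ≤ V := by omega
      exact_mod_cast this
    nlinarith
  have e4 : ‖∑ v ∈ range V, f v‖ ≤
      ‖∑ v ∈ range V, f v - ∑ v ∈ range (Q * M), f v‖ + ‖∑ v ∈ range (Q * M), f v‖ := by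
    have : ∑ v ∈ range V, f v = (∑ v ∈ range V, f v - ∑ v ∈ range (Q * M), f v) + ∑ v ∈ range (Q * M), f v := by ring
    calc _ = ‖_‖ := by rw [← this]
      _ ≤ _ := norm_add_le _ _
  nlinarith

/-- the phases of a real polynomial with an irrational nonconstant coefficient at the values of a nonconstant
integer polynomial have mean zero -/
theorem mz_comp (F : ℝ[X]) (B : ℤ[X]) (hB : 1 ≤ B.natDegree) (hF : ∃ j, 1 ≤ j ∧ Irrational (F.coeff j)) :
    MZ fun l => e (F.eval ((B.eval (l : ℤ) : ℤ) : ℝ)) := by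
  classical
  -- the largest index of an irrational coefficient
  obtain ⟨j, hj1, hjirr, hjmax⟩ : ∃ j, 1 ≤ j ∧ Irrational (F.coeff j) ∧ ∀ i, j < i → ¬ Irrational (F.coeff i) := by
    obtain ⟨j₀, h1, h2⟩ := hF
    have hmem : j₀ ∈ F.support.filter fun j => Irrational (F.coeff j) := by
      rw [mem_filter, mem_support_iff]
      exact ⟨h2.ne_zero, h2⟩
    set S := F.support.filter fun j => Irrational (F.coeff j) with hS
    have hne : S.Nonempty := ⟨j₀, hmem⟩
    refine ⟨S.max' hne, h1.trans (S.le_max' _ hmem), (mem_filter.1 (S.max'_mem hne)).2, ?_⟩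
    intro i hi hirr
    have : i ∈ S := by
      rw [hS, mem_filter, mem_support_iff]
      exact ⟨hirr.ne_zero, hirr⟩
    have := S.le_max' _ this
    omega
  set N := F.natDegree with hN
  have hjN : j ≤ N := le_natDegree_of_ne_zero hjirr.ne_zero
  have hrat : ∀ i, j < i → ∃ a : ℚ, F.coeff i = (a : ℝ) := by
    intro i hi
    have h1 := hjmax i hi
    unfold Irrational at h1
    rw [not_not] at h1
    obtain ⟨a, ha⟩ := h1
    exact ⟨a, ha.symm⟩
  choose! a ha using hrat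
  set Q : ℕ := ∏ i ∈ Ico (j + 1) (N + 1), (a i).den with hQ
  have hQ1 : 1 ≤ Q := by
    rw [hQ]
    exact Nat.one_le_iff_ne_zero.2 (Finset.prod_ne_zero_iff.2 fun i _ => (a i).den_ne_zero)
  have hQint : ∀ i ∈ Ico (j + 1) (N + 1), ∃ b : ℤ, F.coeff i * (Q : ℝ) = (b : ℝ) := by
    intro i hi
    rw [mem_Ico] at hi
    have h1 : (a i).den ∣ Q := Finset.dvd_prod_of_mem _ (mem_Ico.2 hi)
    obtain ⟨c, hc⟩ := h1
    refine ⟨(a i).num * c, ?_⟩
    rw [ha i (by omega), hc]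
    push_cast
    have h2 : ((a i : ℚ) : ℝ) * ((a i).den : ℝ) = ((a i).num : ℝ) := by
      have := Rat.mul_den_eq_num (a i)
      exact_mod_cast congrArg (fun x : ℚ => (x : ℝ)) this
    rw [← mul_assoc, h2]
  -- the two parts
  have hsplit : ∀ x : ℝ, F.eval x = ∑ i ∈ range (j + 1), F.coeff i * x ^ i +
      ∑ i ∈ Ico (j + 1) (N + 1), F.coeff i * x ^ i := by
    intro x
    rw [eval_eq_sum_range, ← Finset.sum_range_add_sum_Ico _ (show j + 1 ≤ N + 1 by omega)]
  set Fl : ℝ[X] := ∑ i ∈ range (j + 1), C (F.coeff i) * X ^ i with hFl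
  have hFle : ∀ x : ℝ, Fl.eval x = ∑ i ∈ range (j + 1), F.coeff i * x ^ i := by
    intro x
    rw [hFl, eval_finsetSum]
    simp
  have hFlc : ∀ n, Fl.coeff n = if n < j + 1 then F.coeff n else 0 := by
    intro n
    rw [hFl, finsetSum_coeff]
    simp only [coeff_C_mul, coeff_X_pow, mul_ite, mul_one, mul_zero]
    rw [Finset.sum_ite_eq]
    simp
  have hFld : Fl.natDegree = j := by
    refine natDegree_eq_of_le_of_coeff_ne_zero ?_ ?_
    · rw [natDegree_le_iff_coeff_eq_zero]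
      intro n hn
      rw [hFlc, if_neg (by omega)]
    · rw [hFlc, if_pos (by omega)]
      exact hjirr.ne_zero
  have hFll : Fl.leadingCoeff = F.coeff j := by
    rw [leadingCoeff, hFld, hFlc, if_pos (by omega)]
  refine mz_split (fun l => by rw [norm_e]) hQ1 fun t => ?_
  -- the composition
  set Bt : ℝ[X] := (B.map (Int.castRingHom ℝ)).comp (C (Q : ℝ) * X + C (t : ℝ)) with hBt
  have hQR : (Q : ℝ) ≠ 0 := by exact_mod_cast (show Q ≠ 0 by omega)
  have hlin : (C (Q : ℝ) * X + C (t : ℝ)).natDegree = 1 := natDegree_linear hQR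
  have hBmap : (B.map (Int.castRingHom ℝ)).natDegree = B.natDegree :=
    natDegree_map_eq_of_injective (RingHom.injective_int (Int.castRingHom ℝ)) B
  have hBmapl : (B.map (Int.castRingHom ℝ)).leadingCoeff = (B.leadingCoeff : ℝ) := by
    rw [leadingCoeff, hBmap, coeff_map]
    rfl
  have hBtd : Bt.natDegree = B.natDegree := by
    rw [hBt, natDegree_comp, hlin, mul_one, hBmap]
  have hBtl : Bt.leadingCoeff = ((B.leadingCoeff * (Q : ℤ) ^ B.natDegree : ℤ) : ℝ) := by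
    rw [hBt, leadingCoeff_comp (by rw [hlin]; exact one_ne_zero), hBmapl, hBmap, leadingCoeff_linear hQR]
    push_cast
    rfl
  have hBte : ∀ l : ℕ, Bt.eval (l : ℝ) = ((B.eval (((t + Q * l : ℕ) : ℤ)) : ℤ) : ℝ) := by
    intro l
    rw [hBt, eval_comp]
    have h1 : (C (Q : ℝ) * X + C (t : ℝ)).eval (l : ℝ) = (Int.castRingHom ℝ) ((t + Q * l : ℕ) : ℤ) := by
      simp
      ring
    rw [h1, eval_map_apply]
    rfl
  set G : ℝ[X] := Fl.comp Bt with hG
  have hGd : G.natDegree = j * B.natDegree := by rw [hG, natDegree_comp, hFld, hBtd]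
  have hBl0 : B.leadingCoeff * (Q : ℤ) ^ B.natDegree ≠ 0 := by
    refine mul_ne_zero ?_ (pow_ne_zero _ (by exact_mod_cast (show Q ≠ 0 by omega)))
    rw [Ne, leadingCoeff_eq_zero]
    rintro rfl
    simp at hB
  have hGl : Irrational (G.coeff G.natDegree) := by
    have h1 : G.coeff G.natDegree = F.coeff j * (((B.leadingCoeff * (Q : ℤ) ^ B.natDegree) ^ j : ℤ) : ℝ) := by
      have h2 : G.coeff G.natDegree = G.leadingCoeff := rfl
      rw [h2, hG, leadingCoeff_comp (by rw [hBtd]; omega), hFll, hFld, hBtl]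
      push_cast
      rfl
    rw [h1]
    exact hjirr.mul_intCast (pow_ne_zero _ hBl0)
  have hGd1 : 1 ≤ G.natDegree := by
    rw [hGd]
    exact Nat.one_le_iff_ne_zero.2 (mul_ne_zero (by omega) (by omega))
  have key := mz_poly G (G.natDegree - 1) (by omega) (by rw [show G.natDegree - 1 + 1 = G.natDegree by omega]; exact hGl)
  -- the constant factor
  set κ : ℂ := e (∑ i ∈ Ico (j + 1) (N + 1), F.coeff i * ((B.eval (t : ℤ) : ℤ) : ℝ) ^ i) with hκ
  have hval : ∀ l : ℕ, e (F.eval ((B.eval ((t + Q * l : ℕ) : ℤ) : ℤ) : ℝ)) = κ * e (G.eval (l : ℝ)) := by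
    intro l
    rw [hsplit, e_add, mul_comm, hG, eval_comp, hBte, hFle]
    congr 1
    have h1 : ∃ m : ℤ, ∑ i ∈ Ico (j + 1) (N + 1), F.coeff i * ((B.eval ((t + Q * l : ℕ) : ℤ) : ℤ) : ℝ) ^ i =
        ∑ i ∈ Ico (j + 1) (N + 1), F.coeff i * ((B.eval (t : ℤ) : ℤ) : ℝ) ^ i + (m : ℝ) := by
      have h2 : ∀ i ∈ Ico (j + 1) (N + 1), ∃ m : ℤ, F.coeff i * ((B.eval ((t + Q * l : ℕ) : ℤ) : ℤ) : ℝ) ^ i =
          F.coeff i * ((B.eval (t : ℤ) : ℤ) : ℝ) ^ i + (m : ℝ) := by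
        intro i hi
        obtain ⟨b, hb⟩ := hQint i hi
        have h3 := sub_dvd_eval_sub (((t + Q * l : ℕ) : ℤ)) (t : ℤ) (B ^ i)
        have h4 : (((t + Q * l : ℕ) : ℤ)) - (t : ℤ) = (Q : ℤ) * l := by push_cast; ring
        rw [h4] at h3
        obtain ⟨c, hc⟩ := h3
        rw [eval_pow, eval_pow] at hc
        refine ⟨b * (l * c), ?_⟩
        have h5 : ((B.eval ((t + Q * l : ℕ) : ℤ) : ℤ) : ℝ) ^ i = ((B.eval (t : ℤ) : ℤ) : ℝ) ^ i + (Q : ℝ) * l * c := by
          have h6 : (B.eval ((t + Q * l : ℕ) : ℤ)) ^ i = (B.eval (t : ℤ)) ^ i + (Q : ℤ) * l * c := by linarith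
          exact_mod_cast congrArg (fun x : ℤ => (x : ℝ)) h6
        rw [h5]
        push_cast
        rw [← hb]
        ring
      choose! m hm using h2
      refine ⟨∑ i ∈ Ico (j + 1) (N + 1), m i, ?_⟩
      rw [Finset.sum_congr rfl hm, Finset.sum_add_distrib]
      push_cast
      rfl
    obtain ⟨m, hm⟩ := h1
    rw [hm, e_add, e_int, mul_one]
  unfold MZ at key ⊢
  simp only [hval, ← Finset.mul_sum, mul_div_assoc]
  simpa using key.const_mul κ

/-- the family as an integer polynomial in `v` -/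
noncomputable def Bfam (q r : ℕ) : ℤ[X] :=
  C (16 * (q : ℤ) ^ 4) * (C ((64 * q ^ 2 : ℕ) : ℤ) * X + C (r : ℤ)) ^ 3 - (C ((64 * q ^ 2 : ℕ) : ℤ) * X + C (r : ℤ))

theorem eval_Bfam {q r : ℕ} (hq : 1 ≤ q) (hr : 1 ≤ r) (v : ℕ) :
    (Bfam q r).eval (v : ℤ) = (fam q (r + 64 * q ^ 2 * v) : ℤ) := by
  rw [fam_cast hq (by omega)]
  unfold Bfam
  simp only [eval_sub, eval_mul, eval_C, eval_pow, eval_add, eval_X]
  push_cast
  ring

theorem natDegree_Bfam {q r : ℕ} (hq : 1 ≤ q) : (Bfam q r).natDegree = 3 := by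
  have h64 : ((64 * q ^ 2 : ℕ) : ℤ) ≠ 0 := by
    have : (64 * q ^ 2 : ℕ) ≠ 0 := by positivity
    exact_mod_cast this
  have h1 : (C ((64 * q ^ 2 : ℕ) : ℤ) * X + C (r : ℤ)).natDegree = 1 := natDegree_linear h64
  have hq4 : (16 * (q : ℤ) ^ 4) ≠ 0 := by
    have : (q : ℤ) ≠ 0 := by exact_mod_cast (show q ≠ 0 by omega)
    positivity
  have h2 : (C (16 * (q : ℤ) ^ 4) * (C ((64 * q ^ 2 : ℕ) : ℤ) * X + C (r : ℤ)) ^ 3).natDegree = 3 := by
    rw [natDegree_C_mul hq4, natDegree_pow, h1]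
  unfold Bfam
  rw [natDegree_sub_eq_left_of_natDegree_lt]
  · exact h2
  · rw [h2, h1]; norm_num

/-- **The means over the good members** of the phases of a real polynomial with an irrational nonconstant
coefficient tend to zero. -/
theorem mean_phase {q r : ℕ} {h : ℤ} (D : Data q r h) [DecidablePred (Good q r)] (F : ℝ[X])
    (hF : ∃ j, 1 ≤ j ∧ Irrational (F.coeff j)) :
    Tendsto (fun V : ℕ => (∑ v ∈ (range V).filter fun v => Good q r v,
      e (F.eval (fam q (r + 64 * q ^ 2 * v) : ℝ))) / (V : ℂ)) atTop (𝓝 0) := by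
  refine mean_good D _ (fun v => by rw [norm_e]) fun P hP s => ?_
  have hPZ : (P : ℤ) ≠ 0 := by exact_mod_cast (show P ≠ 0 by omega)
  have h1 : (C (P : ℤ) * X + C (s : ℤ)).natDegree = 1 := natDegree_linear hPZ
  have h2 := mz_comp F ((Bfam q r).comp (C (P : ℤ) * X + C (s : ℤ))) (by
    rw [natDegree_comp, h1, natDegree_Bfam D.hq]
    norm_num) hF
  have h3 : ∀ l : ℕ, (((Bfam q r).comp (C (P : ℤ) * X + C (s : ℤ))).eval (l : ℤ) : ℤ) =
      (fam q (r + 64 * q ^ 2 * (s + P * l)) : ℤ) := by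
    intro l
    rw [eval_comp, ← eval_Bfam D.hq D.hr]
    congr 1
    simp
    ring
  simp only [h3] at h2
  unfold MZ at h2
  exact_mod_cast h2

end Pool.Agent.K6.H90.CN
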